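import Pool.Agent.R460.SB.Per
import Pool.Agent.R460.SQ.Pars
import Pool.Agent.Y697.GJ.LiftC
import Pool.Agent.Y872.GJ.Pars
import Pool.Agent.Y812.GJ.L2

set_option autoImplicit false

/-! The sums over a class, the identity of Parseval and the lifting inequality. -/

namespace Pool.Agent.R460.SB

open Finset
open Pool.Agent.H807R2.Dav (ee norm_ee ee_add ee_add_int)
open Pool.Agent.Y883.GJ (cl)
open Pool.Agent.R460.SQ (cls ee_class)

/-- the correlation with a quadratic polynomial -/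
noncomputable def cvs (α γ : ℤ) (G : ℕ → ℂ) (y N : ℕ) (n : ℤ) : ℂ :=
  ∑ m ∈ Icc 1 y, ∑ l ∈ Icc 1 N, if (l : ℤ) + (α * (m : ℤ) ^ 2 + γ * (m : ℤ)) = n then G l else 0

/-- the sum over one class -/
noncomputable def TT (α γ : ℤ) (G : ℕ → ℂ) (y N q : ℕ) (β : ℝ) (a : ZMod q) : ℂ :=
  ∑ m ∈ Icc 1 y, ee (((α : ℝ) * (m : ℝ) ^ 2 + (γ : ℝ) * (m : ℝ)) * β) * cl q N G β (a - ((α : ZMod q) * (m : ZMod q) ^ 2 + (γ : ZMod q) * (m : ZMod q)))

/-- the part of the quadratic sum in one class -/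
noncomputable def SF (α γ : ℤ) (y q : ℕ) (β : ℝ) (k : ZMod q) : ℂ :=
  ∑ m ∈ (Icc 1 y).filter (fun m : ℕ => (m : ZMod q) = k), ee (((α : ℝ) * (m : ℝ) ^ 2 + (γ : ℝ) * (m : ℝ)) * β)

/-- the size of a value -/
lemma val_abs {α γ : ℤ} {m y N : ℕ} (hm : m ∈ Icc 1 y) (hy : y ^ 2 ≤ N) :
    |α * (m : ℤ) ^ 2 + γ * (m : ℤ)| ≤ (|α| + |γ|) * N := by
  rw [mem_Icc] at hm
  have h3 : (m : ℤ) ^ 2 ≤ N := by
    have : m ^ 2 ≤ N := (Nat.pow_le_pow_left hm.2 2).trans hy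
    exact_mod_cast this
  have h4 : (m : ℤ) ≤ (m : ℤ) ^ 2 := by
    have : (1 : ℤ) ≤ m := by exact_mod_cast hm.1
    nlinarith
  have h5 : |α * (m : ℤ) ^ 2| ≤ |α| * N := by
    rw [abs_mul, abs_of_nonneg (sq_nonneg (m : ℤ))]
    exact mul_le_mul_of_nonneg_left h3 (abs_nonneg _)
  have h6 : |γ * (m : ℤ)| ≤ |γ| * N := by
    rw [abs_mul, abs_of_nonneg (by positivity : (0 : ℤ) ≤ (m : ℤ))]
    exact mul_le_mul_of_nonneg_left (h4.trans h3) (abs_nonneg _)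
  refine (abs_add_le _ _).trans ?_
  rw [add_mul]
  exact add_le_add h5 h6

lemma TT_eq {α γ : ℤ} {G : ℕ → ℂ} {y N q : ℕ} (hy : y ^ 2 ≤ N) (β : ℝ) (a : ZMod q) :
    TT α γ G y N q β a = ∑ n ∈ cls ((α.natAbs + γ.natAbs + 1) * N) q a, cvs α γ G y N n * ee (n * β) := by
  obtain ⟨R, hR⟩ : ∃ R, R = (α.natAbs + γ.natAbs + 1) * N := ⟨_, rfl⟩
  rw [← hR]
  have h1 : ∑ n ∈ cls R q a, cvs α γ G y N n * ee (n * β) =
      ∑ m ∈ Icc 1 y, ∑ l ∈ Icc 1 N, ∑ n ∈ cls R q a,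
        (if (l : ℤ) + (α * (m : ℤ) ^ 2 + γ * (m : ℤ)) = n then G l * ee (n * β) else 0) := by
    unfold cvs
    rw [sum_congr rfl fun n _ => sum_mul _ _ _, sum_comm]
    refine sum_congr rfl fun m _ => ?_
    rw [sum_congr rfl fun n _ => sum_mul _ _ _, sum_comm]
    refine sum_congr rfl fun l _ => sum_congr rfl fun n _ => ?_
    split_ifs
    · rfl
    · rw [zero_mul]
  rw [h1]
  unfold TT cl
  refine sum_congr rfl fun m hm => ?_
  rw [mul_sum, sum_filter]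
  refine sum_congr rfl fun l hl => ?_
  rw [mem_Icc] at hm hl
  have h2 : (l : ℤ) + (α * (m : ℤ) ^ 2 + γ * (m : ℤ)) ∈ Icc (-(R : ℤ)) R := by
    have h4 : (l : ℤ) ≤ N := by exact_mod_cast hl.2
    have h5 : |α * (m : ℤ) ^ 2 + γ * (m : ℤ)| ≤ (|α| + |γ|) * N := val_abs (mem_Icc.2 hm) hy
    have h6 : ((R : ℕ) : ℤ) = (|α| + |γ|) * N + N := by
      rw [hR]
      push_cast
      ring
    have h7 := abs_le.1 h5
    rw [mem_Icc, h6]
    constructor
    · have : (0 : ℤ) ≤ l := Nat.cast_nonneg _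
      have : (0 : ℤ) ≤ N := Nat.cast_nonneg _
      linarith [h7.1]
    · linarith [h7.2]
  rw [sum_ite_eq]
  have h3 : (l : ℤ) + (α * (m : ℤ) ^ 2 + γ * (m : ℤ)) ∈ cls R q a ↔ (l : ZMod q) = a - ((α : ZMod q) * (m : ZMod q) ^ 2 + (γ : ZMod q) * (m : ZMod q)) := by
    unfold cls
    rw [mem_filter]
    push_cast
    constructor
    · rintro ⟨-, h⟩
      rw [← h]
      ring
    · intro h
      refine ⟨h2, ?_⟩
      rw [h]
      ring
  by_cases h : (l : ZMod q) = a - ((α : ZMod q) * (m : ZMod q) ^ 2 + (γ : ZMod q) * (m : ZMod q))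
  · rw [if_pos h, if_pos (h3.2 h)]
    have h4 : (((l : ℤ) + (α * (m : ℤ) ^ 2 + γ * (m : ℤ)) : ℤ) : ℝ) * β = ((α : ℝ) * (m : ℝ) ^ 2 + (γ : ℝ) * (m : ℝ)) * β + l * β := by
      push_cast
      ring
    rw [h4, ee_add]
    ring
  · rw [if_neg h, if_neg (fun hh => h (h3.1 hh))]

/-- Parseval -/
lemma TT_mean {α γ : ℤ} {G : ℕ → ℂ} {y N q : ℕ} (hy : y ^ 2 ≤ N) (a : ZMod q) :
    ((2 * ((α.natAbs + γ.natAbs + 1) * N) + 1 : ℕ) : ℝ) * ∑ n ∈ cls ((α.natAbs + γ.natAbs + 1) * N) q a, ‖cvs α γ G y N n‖ ^ 2 =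
      ∑ t ∈ range (2 * ((α.natAbs + γ.natAbs + 1) * N) + 1),
        ‖TT α γ G y N q ((t : ℝ) / (2 * ((α.natAbs + γ.natAbs + 1) * N) + 1 : ℕ)) a‖ ^ 2 := by
  rw [← Pool.Agent.Y697.GJ.pars_gen (M := 2 * ((α.natAbs + γ.natAbs + 1) * N) + 1) (by omega)
    (cls ((α.natAbs + γ.natAbs + 1) * N) q a) ?_ (fun n => cvs α γ G y N n)]
  · refine sum_congr rfl fun t _ => ?_
    rw [TT_eq hy]
  · intro k hk k' hk' hd
    unfold cls at hk hk'
    rw [mem_filter, mem_Icc] at hk hk'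
    obtain ⟨c, hc⟩ := hd
    have h1 := hk.1
    have h2 := hk'.1
    obtain ⟨R, hR⟩ : ∃ R, R = (α.natAbs + γ.natAbs + 1) * N := ⟨_, rfl⟩
    rw [← hR] at h1 h2 hc
    push_cast at hc
    have h3 : c = 0 := by
      by_contra h0
      rcases lt_or_gt_of_ne h0 with h | h
      · nlinarith
      · nlinarith
    rw [h3, mul_zero] at hc
    linarith

/-- the lifting inequality -/
lemma TT_lift {α γ : ℤ} {G : ℕ → ℂ} {y N q k : ℕ} [NeZero q] [NeZero (k * q)] (hy : y ^ 2 ≤ N) {h : ℤ} {β η : ℝ}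
    (hβ : β = h / (k * q : ℕ) + η) (a : ZMod q) :
    ‖TT α γ G y N q β a‖ ≤ ∑ a' ∈ univ.filter (fun a' : ZMod (k * q) => ((a'.val : ℕ) : ZMod q) = a),
      ‖TT α γ G y N (k * q) η a'‖ := by
  rw [TT_eq hy]
  have h1 : ∑ n ∈ cls ((α.natAbs + γ.natAbs + 1) * N) q a, cvs α γ G y N n * ee (n * β) =
      ∑ a' ∈ univ.filter (fun a' : ZMod (k * q) => ((a'.val : ℕ) : ZMod q) = a),
        ee ((a'.val : ℝ) * ((h : ℝ) / (k * q : ℕ))) * TT α γ G y N (k * q) η a' := by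
    rw [← Finset.sum_fiberwise_of_maps_to (s := cls ((α.natAbs + γ.natAbs + 1) * N) q a)
      (t := univ.filter (fun a' : ZMod (k * q) => ((a'.val : ℕ) : ZMod q) = a)) (g := fun n : ℤ => (n : ZMod (k * q)))]
    · refine sum_congr rfl fun a' ha' => ?_
      rw [TT_eq hy, mul_sum]
      have hset : (cls ((α.natAbs + γ.natAbs + 1) * N) q a).filter (fun n : ℤ => (n : ZMod (k * q)) = a') =
          cls ((α.natAbs + γ.natAbs + 1) * N) (k * q) a' := by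
        ext n
        unfold cls
        rw [mem_filter, mem_filter, mem_filter]
        constructor
        · rintro ⟨⟨c1, _⟩, c3⟩
          exact ⟨c1, c3⟩
        · rintro ⟨c1, c3⟩
          refine ⟨⟨c1, ?_⟩, c3⟩
          rw [mem_filter] at ha'
          rw [← ha'.2, ← c3]
          have e1 : ((n : ZMod (k * q)).val : ℤ) = n % ((k * q : ℕ) : ℤ) := ZMod.val_intCast n
          have e2 : (((n : ZMod (k * q)).val : ℕ) : ZMod q) = ((((n : ZMod (k * q)).val : ℤ)) : ZMod q) := by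
            push_cast
            rfl
          rw [e2, e1]
          have e3 : n = n % ((k * q : ℕ) : ℤ) + ((k * q : ℕ) : ℤ) * (n / ((k * q : ℕ) : ℤ)) :=
            (Int.emod_add_mul_ediv n _).symm
          conv_lhs => rw [e3]
          push_cast
          rw [ZMod.natCast_self]
          ring
      rw [hset]
      refine sum_congr rfl fun n hn => ?_
      unfold cls at hn
      rw [mem_filter] at hn
      have e1 : (n : ℝ) * β = (n : ℝ) * ((h : ℝ) / (k * q : ℕ)) + n * η := by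
        rw [hβ]
        ring
      rw [e1, ee_add, ee_class h n a' hn.2]
      ring
    · intro n hn
      unfold cls at hn
      rw [mem_filter] at hn ⊢
      refine ⟨mem_univ _, ?_⟩
      rw [← hn.2]
      have e1 : ((n : ZMod (k * q)).val : ℤ) = n % ((k * q : ℕ) : ℤ) := ZMod.val_intCast n
      have e2 : (((n : ZMod (k * q)).val : ℕ) : ZMod q) = ((((n : ZMod (k * q)).val : ℤ)) : ZMod q) := by
        push_cast
        rfl
      rw [e2, e1]
      have e3 : n = n % ((k * q : ℕ) : ℤ) + ((k * q : ℕ) : ℤ) * (n / ((k * q : ℕ) : ℤ)) :=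
        (Int.emod_add_mul_ediv n _).symm
      conv_rhs => rw [e3]
      push_cast
      rw [ZMod.natCast_self]
      ring
  rw [h1]
  refine (norm_sum_le _ _).trans (le_of_eq (sum_congr rfl fun a' _ => ?_))
  rw [norm_mul, norm_ee, one_mul]

/-- Cauchy's inequality -/
lemma TT_cauchy {α γ : ℤ} {G : ℕ → ℂ} {y N q : ℕ} [NeZero q] (β : ℝ) (a : ZMod q) :
    ‖TT α γ G y N q β a‖ ^ 2 ≤ (∑ k : ZMod q, ‖SF α γ y q β k‖ ^ 2) *
      ∑ k : ZMod q, ‖cl q N G β (a - ((α : ZMod q) * k ^ 2 + (γ : ZMod q) * k))‖ ^ 2 := by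
  have h1 : TT α γ G y N q β a = ∑ k : ZMod q, SF α γ y q β k * cl q N G β (a - ((α : ZMod q) * k ^ 2 + (γ : ZMod q) * k)) := by
    unfold TT SF
    rw [← Finset.sum_fiberwise (Icc 1 y) (fun m : ℕ => (m : ZMod q))]
    refine sum_congr rfl fun k _ => ?_
    rw [sum_mul]
    refine sum_congr rfl fun m hm => ?_
    rw [(mem_filter.1 hm).2]
  rw [h1]
  calc ‖∑ k : ZMod q, SF α γ y q β k * cl q N G β (a - ((α : ZMod q) * k ^ 2 + (γ : ZMod q) * k))‖ ^ 2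
      ≤ (∑ k : ZMod q, ‖SF α γ y q β k‖ * ‖cl q N G β (a - ((α : ZMod q) * k ^ 2 + (γ : ZMod q) * k))‖) ^ 2 := by
        apply pow_le_pow_left₀ (norm_nonneg _)
        refine (norm_sum_le _ _).trans (le_of_eq (sum_congr rfl fun k _ => norm_mul _ _))
    _ ≤ _ := sum_mul_sq_le_sq_mul_sq _ _ _

end Pool.Agent.R460.SB
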