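import Pool.Agent.R460.SB.Det
import Pool.Agent.R460.SB.Pars
import Pool.Agent.R460.SQ.Model

set_option autoImplicit false

/-! The sums over the absolute values of a quadratic polynomial. -/

namespace Pool.Agent.R460.SB

open Finset
open Pool.Agent.H373R2.T7 (lamz Vz pz Vz_pos nuB mem_pz)
open Pool.Agent.R460.SQ (DZ cls)

/-- the value at `m` -/
def fv (α γ n : ℤ) (m : ℕ) : ℤ := n - (α * (m : ℤ) ^ 2 + γ * (m : ℤ))

lemma fv_neg (α γ n : ℤ) (m : ℕ) : fv (-α) (-γ) (-n) m = -fv α γ n m := by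
  unfold fv
  ring

lemma fv_abs {α γ n : ℤ} {X N y m : ℕ} (hN : (α.natAbs + γ.natAbs + 1) * X ≤ N) (hn : |n| ≤ X) (hy : y ^ 2 ≤ X)
    (hm : m ∈ Icc 1 y) : |fv α γ n m| ≤ N := by
  have h5 : |α * (m : ℤ) ^ 2 + γ * (m : ℤ)| ≤ (|α| + |γ|) * X := val_abs hm hy
  have h6 : (|α| + |γ|) * (X : ℤ) + X ≤ N := by
    have : ((((α.natAbs + γ.natAbs + 1) * X : ℕ)) : ℤ) ≤ N := by exact_mod_cast hN
    push_cast at this
    linarith
  unfold fv
  refine (abs_sub _ _).trans ?_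
  linarith

/-- the correlation as a sum over `m` -/
lemma cvs_fv {α γ : ℤ} {G : ℕ → ℂ} {y N : ℕ} {n : ℤ} (h : ∀ m ∈ Icc 1 y, |fv α γ n m| ≤ N) :
    cvs α γ G y N n = ∑ m ∈ Icc 1 y, if 1 ≤ fv α γ n m then G (fv α γ n m).natAbs else 0 := by
  unfold cvs
  refine sum_congr rfl fun m hm => ?_
  have h1 := abs_le.1 (h m hm)
  obtain ⟨f, hf⟩ : ∃ f, f = fv α γ n m := ⟨_, rfl⟩
  have hf' : f = n - (α * (m : ℤ) ^ 2 + γ * (m : ℤ)) := by rw [hf]; rfl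
  rw [← hf] at h1 ⊢
  have h2 : ∀ l : ℕ, (l : ℤ) + (α * (m : ℤ) ^ 2 + γ * (m : ℤ)) = n ↔ (l : ℤ) = f := by
    intro l
    rw [hf']
    constructor <;> intro h <;> linarith
  simp only [h2]
  split_ifs with h3
  · rw [sum_eq_single f.natAbs]
    · rw [if_pos (by omega)]
    · intro l _ hl
      rw [if_neg]
      intro h4
      omega
    · intro h4
      exfalso
      apply h4
      rw [mem_Icc]
      omega
  · apply sum_eq_zero
    intro l hl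
    rw [mem_Icc] at hl
    rw [if_neg]
    intro h4
    omega

open Classical in
lemma lamz_fv {α γ : ℤ} {y z : ℕ} {n : ℤ} :
    ∑ m ∈ Icc 1 y, lamz z (fv α γ n m).natAbs =
      (Vz z)⁻¹ * (((Icc 1 y).filter (fun m : ℕ => ∀ p ∈ pz z, ¬ QS α γ n p m)).card : ℝ) := by
  rw [card_eq_sum_ones, Nat.cast_sum, sum_filter, mul_sum]
  refine sum_congr rfl fun m _ => ?_
  unfold lamz QS
  have h4 : (∀ p ∈ pz z, ¬ p ∣ (fv α γ n m).natAbs) ↔
      ∀ p ∈ pz z, ¬ (p : ℤ) ∣ n - (α * (m : ℤ) ^ 2 + γ * (m : ℤ)) := by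
    have e : ∀ p : ℕ, p ∣ (fv α γ n m).natAbs ↔ (p : ℤ) ∣ n - (α * (m : ℤ) ^ 2 + γ * (m : ℤ)) :=
      fun p => Int.natCast_dvd.symm
    simp only [e]
  by_cases h5 : ∀ p ∈ pz z, ¬ (p : ℤ) ∣ n - (α * (m : ℤ) ^ 2 + γ * (m : ℤ))
  · rw [if_pos (h4.2 h5), if_pos h5]
    push_cast
    ring
  · rw [if_neg (fun hh => h5 (h4.1 hh)), if_neg h5]
    simp

lemma DZ_zero {z : ℕ} (hz : 2 ≤ z) : DZ z 0 = 0 := by
  unfold DZ lamz
  rw [if_neg]
  · simp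
  · intro h
    exact h 2 (mem_pz.2 ⟨hz, Nat.prime_two⟩) (dvd_zero 2)

/-- both signs together -/
lemma both_signs {α γ : ℤ} {y z N : ℕ} {n : ℤ} (hz : 2 ≤ z) (h : ∀ m ∈ Icc 1 y, |fv α γ n m| ≤ N) :
    |∑ m ∈ Icc 1 y, ArithmeticFunction.vonMangoldt (fv α γ n m).natAbs -
      ∑ m ∈ Icc 1 y, lamz z (fv α γ n m).natAbs| ≤
      ‖cvs α γ (DZ z) y N n‖ + ‖cvs (-α) (-γ) (DZ z) y N (-n)‖ := by
  have h' : ∀ m ∈ Icc 1 y, |fv (-α) (-γ) (-n) m| ≤ N := by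
    intro m hm
    rw [fv_neg, abs_neg]
    exact h m hm
  have e1 : ((∑ m ∈ Icc 1 y, ArithmeticFunction.vonMangoldt (fv α γ n m).natAbs -
      ∑ m ∈ Icc 1 y, lamz z (fv α γ n m).natAbs : ℝ) : ℂ) =
      cvs α γ (DZ z) y N n + cvs (-α) (-γ) (DZ z) y N (-n) := by
    rw [cvs_fv h, cvs_fv h', ← sum_add_distrib, ← sum_sub_distrib]
    push_cast
    refine sum_congr rfl fun m _ => ?_
    rw [fv_neg, Int.natAbs_neg]
    have e2 : ((ArithmeticFunction.vonMangoldt (fv α γ n m).natAbs : ℝ) : ℂ) - ((lamz z (fv α γ n m).natAbs : ℝ) : ℂ) =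
        DZ z (fv α γ n m).natAbs := by
      unfold DZ
      push_cast
      rfl
    rw [e2]
    rcases lt_trichotomy (fv α γ n m) 0 with h0 | h0 | h0
    · rw [if_neg (by omega), if_pos (by omega), zero_add]
    · rw [if_neg (by omega), if_neg (by omega), h0, Int.natAbs_zero, DZ_zero hz, add_zero]
    · rw [if_pos (by omega), if_neg (by omega), add_zero]
  calc _ = ‖((∑ m ∈ Icc 1 y, ArithmeticFunction.vonMangoldt (fv α γ n m).natAbs -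
      ∑ m ∈ Icc 1 y, lamz z (fv α γ n m).natAbs : ℝ) : ℂ)‖ := by
        rw [Complex.norm_real, Real.norm_eq_abs]
    _ ≤ _ := by
        rw [e1]
        exact norm_add_le _ _

/-- the sum of the von Mangoldt function in terms of the correlations -/
lemma near_abs {α γ : ℤ} (hα : α ≠ 0) (C E : ℕ) : ∃ X₀ : ℕ, ∀ X : ℕ, X₀ ≤ X → ∀ z : ℕ, 2 ≤ z →
    (z : ℝ) ≤ Real.log X ^ E → (Vz z)⁻¹ ≤ Real.log X → ∀ (n : ℤ) (y N : ℕ), y ^ 2 ≤ X →
    (∀ m ∈ Icc 1 y, |fv α γ n m| ≤ N) →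
    |∑ m ∈ Icc 1 y, ArithmeticFunction.vonMangoldt (fv α γ n m).natAbs - Sz α γ n z * y| ≤
      ‖cvs α γ (DZ z) y N n‖ + ‖cvs (-α) (-γ) (DZ z) y N (-n)‖ + Real.sqrt X / Real.log X ^ C := by
  classical
  obtain ⟨X₀, h0⟩ := det_sq (γ := γ) hα C E
  refine ⟨X₀, fun X hX z hz hzE hV n y N hy h => ?_⟩
  have h1 := h0 X hX z (by omega) hzE hV n y hy
  rw [← lamz_fv] at h1
  have h2 := both_signs hz h
  have e : ∑ m ∈ Icc 1 y, ArithmeticFunction.vonMangoldt (fv α γ n m).natAbs - Sz α γ n z * y =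
      (∑ m ∈ Icc 1 y, ArithmeticFunction.vonMangoldt (fv α γ n m).natAbs -
        ∑ m ∈ Icc 1 y, lamz z (fv α γ n m).natAbs) +
      (∑ m ∈ Icc 1 y, lamz z (fv α γ n m).natAbs - Sz α γ n z * y) := by ring
  rw [e]
  exact (abs_add_le _ _).trans (add_le_add h2 h1)

end Pool.Agent.R460.SB
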