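import Pool.Agent.R460.SQ.Cnt

set_option autoImplicit false

/-! Complete sums of a character over the values of a quadratic polynomial, with a linear term. -/

namespace Pool.Agent.R460.SB

open Finset
open Pool.Agent.Y662.GJ (fs conv_bound card_ker fs_char_le)
open Pool.Agent.R460.SQ (card_lin gcd_mul_val sum_gcd sol_sq)

variable {q : ℕ} [NeZero q]

/-- the number of solutions of `α k² + g k = l` -/
def rt (α : ℤ) (g l : ZMod q) : ℕ :=
  (univ.filter (fun k : ZMod q => (α : ZMod q) * k ^ 2 + g * k = l)).card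

lemma sum_rt {M : Type*} [AddCommMonoid M] (α : ℤ) (g : ZMod q) (φ : ZMod q → M) :
    ∑ k : ZMod q, φ ((α : ZMod q) * k ^ 2 + g * k) = ∑ l : ZMod q, rt α g l • φ l := by
  rw [← Finset.sum_fiberwise (univ : Finset (ZMod q)) (fun k => (α : ZMod q) * k ^ 2 + g * k)
    (fun k => φ ((α : ZMod q) * k ^ 2 + g * k))]
  refine sum_congr rfl fun l _ => ?_
  unfold rt
  rw [sum_congr rfl fun k hk => by rw [(mem_filter.1 hk).2], sum_const]

/-- the second moment -/
lemma sum_rt_sq {α : ℤ} (hα : α ≠ 0) (g : ZMod q) :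
    ∑ l : ZMod q, rt α g l ^ 2 ≤ 2 * α.natAbs * (q.divisors.card * q) := by
  have e1 : ∑ l : ZMod q, rt α g l ^ 2 = ∑ k : ZMod q, rt α g ((α : ZMod q) * k ^ 2 + g * k) := by
    rw [sum_rt α g (fun l => rt α g l)]
    exact sum_congr rfl fun l _ => by rw [smul_eq_mul, sq]
  have e2 : ∑ k : ZMod q, rt α g ((α : ZMod q) * k ^ 2 + g * k) =
      ∑ k : ZMod q, ∑ u : ZMod q,
        if (α : ZMod q) * (k + u) ^ 2 + g * (k + u) = (α : ZMod q) * k ^ 2 + g * k then 1 else 0 := by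
    refine sum_congr rfl fun k _ => ?_
    unfold rt
    rw [card_eq_sum_ones, sum_filter]
    exact (Fintype.sum_equiv (Equiv.addLeft k) _ _ fun u => rfl).symm
  rw [e1, e2, sum_comm]
  have h1 : ∀ u : ZMod q, ∑ k : ZMod q,
      (if (α : ZMod q) * (k + u) ^ 2 + g * (k + u) = (α : ZMod q) * k ^ 2 + g * k then 1 else 0) ≤
      2 * α.natAbs * Nat.gcd u.val q := by
    intro u
    rw [← sum_filter, ← card_eq_sum_ones]
    have h2 : (univ.filter (fun k : ZMod q =>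
        (α : ZMod q) * (k + u) ^ 2 + g * (k + u) = (α : ZMod q) * k ^ 2 + g * k)) ⊆
        univ.filter (fun k : ZMod q => k * (((2 * α : ℤ) : ZMod q) * u) = -((α : ZMod q) * u ^ 2 + g * u)) := by
      intro k hk
      rw [mem_filter] at hk ⊢
      refine ⟨mem_univ _, ?_⟩
      have h3 := hk.2
      push_cast
      linear_combination h3
    refine (card_le_card h2).trans ((card_lin _ _).trans ?_)
    have h3 := gcd_mul_val (q := q) (α := 2 * α) (by omega) u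
    rw [Int.natAbs_mul] at h3
    exact h3
  refine (sum_le_sum fun u _ => h1 u).trans ?_
  rw [← mul_sum]
  exact Nat.mul_le_mul_left _ sum_gcd

/-- the complete sum -/
noncomputable def Sq (α : ℤ) (g : ZMod q) (χ : DirichletCharacter ℂ q) (a : ZMod q) : ℂ :=
  ∑ k : ZMod q, χ (a - ((α : ZMod q) * k ^ 2 + g * k))

lemma Sq_unit (α : ℤ) (g : ZMod q) (χ : DirichletCharacter ℂ q) (a t : ZMod q) (u : (ZMod q)ˣ) :
    ‖Sq α ((u : ZMod q) * g + 2 * (α : ZMod q) * t) χ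
      ((u : ZMod q) ^ 2 * a - (α : ZMod q) * t ^ 2 - (u : ZMod q) * g * t)‖ = ‖Sq α g χ a‖ := by
  have h1 : χ ((u : ZMod q) ^ 2) * Sq α g χ a = Sq α ((u : ZMod q) * g + 2 * (α : ZMod q) * t) χ
      ((u : ZMod q) ^ 2 * a - (α : ZMod q) * t ^ 2 - (u : ZMod q) * g * t) := by
    unfold Sq
    rw [mul_sum]
    refine Fintype.sum_equiv ((Units.mulLeft u).trans (Equiv.subRight t)) _ _ fun k => ?_
    rw [← map_mul]
    congr 1
    simp only [Equiv.trans_apply, Units.mulLeft_apply, Equiv.subRight_apply]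
    ring
  rw [← h1, norm_mul, map_pow, norm_pow, DirichletCharacter.unit_norm_eq_one, one_pow, one_mul]

lemma Sq_mean {α : ℤ} (hα : α ≠ 0) (g : ZMod q) (χ : DirichletCharacter ℂ q) :
    ∑ b : ZMod q, ‖Sq α g χ b‖ ^ 2 ≤ (q / Real.sqrt χ.conductor * (1 + Real.log q)) ^ 2 *
      (2 * |(α : ℝ)| * (q.divisors.card * q)) := by
  have h1 : ∀ b : ZMod q, Sq α g χ b = ∑ l : ZMod q, χ l * ((rt α g (b - l) : ℕ) : ℂ) := by
    intro b
    unfold Sq
    rw [sum_rt α g (fun l => χ (b - l)), ← Equiv.sum_comp (Equiv.subLeft b)]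
    refine sum_congr rfl fun l _ => ?_
    simp only [Equiv.subLeft_apply]
    rw [nsmul_eq_mul, sub_sub_cancel, mul_comm]
  have h2 := conv_bound (fun l => χ l) (fun l => ((rt α g l : ℕ) : ℂ)) _ (fs_char_le q χ)
  rw [sum_congr rfl fun b _ => by rw [h1 b]]
  refine h2.trans ?_
  apply mul_le_mul_of_nonneg_left _ (sq_nonneg _)
  have h3 : ∑ l : ZMod q, ‖((rt α g l : ℕ) : ℂ)‖ ^ 2 = ((∑ l : ZMod q, rt α g l ^ 2 : ℕ) : ℝ) := by
    push_cast
    refine sum_congr rfl fun l _ => ?_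
    rw [Complex.norm_natCast]
  rw [h3]
  have h4 := sum_rt_sq (q := q) hα g
  have h5 : ((∑ l : ZMod q, rt α g l ^ 2 : ℕ) : ℝ) ≤ ((2 * α.natAbs * (q.divisors.card * q) : ℕ) : ℝ) := by
    exact_mod_cast h4
  refine h5.trans (le_of_eq ?_)
  push_cast
  rw [Nat.cast_natAbs, Int.cast_abs]

/-- reduction of the linear coefficient -/
lemma red_lin {α : ℤ} (hα : α ≠ 0) (w : ZMod q) : ∃ (r : ℕ) (t : ZMod q), r < 2 * α.natAbs ∧
    w + 2 * (α : ZMod q) * t = (r : ZMod q) := by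
  have h0 : 0 < 2 * α.natAbs := by have := Int.natAbs_pos.2 hα; omega
  refine ⟨w.val % (2 * α.natAbs), -((α.sign : ℤ) : ZMod q) * ((w.val / (2 * α.natAbs) : ℕ) : ZMod q),
    Nat.mod_lt _ h0, ?_⟩
  have h1 : w = ((w.val : ℕ) : ZMod q) := (ZMod.natCast_zmod_val w).symm
  have h2 : ((w.val : ℕ) : ZMod q) = (2 * ((α.natAbs : ℕ) : ZMod q)) * ((w.val / (2 * α.natAbs) : ℕ) : ZMod q) +
      ((w.val % (2 * α.natAbs) : ℕ) : ZMod q) := by
    conv_lhs => rw [← Nat.div_add_mod w.val (2 * α.natAbs)]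
    push_cast
    ring
  have h3 : (α : ZMod q) * ((α.sign : ℤ) : ZMod q) = ((α.natAbs : ℕ) : ZMod q) := by
    rw [← Int.cast_mul, mul_comm α, Int.sign_mul_self_eq_abs, Int.abs_eq_natAbs, Int.cast_natCast]
  have h4 : w + 2 * (α : ZMod q) * (-((α.sign : ℤ) : ZMod q) * ((w.val / (2 * α.natAbs) : ℕ) : ZMod q)) =
      w - 2 * ((α : ZMod q) * ((α.sign : ℤ) : ZMod q)) * ((w.val / (2 * α.natAbs) : ℕ) : ZMod q) := by ring
  rw [h4, h3]
  linear_combination h1 + h2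

/-- the bound for one complete sum -/
lemma Sq_le {α : ℤ} (hα : α ≠ 0) (g : ZMod q) (χ : DirichletCharacter ℂ q) (a : ZMod q) :
    (q.totient : ℝ) * ‖Sq α g χ a‖ ^ 2 ≤ (2 * |(α : ℝ)|) *
      ((2 * Nat.gcd (4 * (α : ZMod q) * a + g ^ 2).val q * q.divisors.card) *
      ((q / Real.sqrt χ.conductor * (1 + Real.log q)) ^ 2 * (2 * |(α : ℝ)| * (q.divisors.card * q)))) := by
  classical
  choose r t hr ht using fun u : (ZMod q)ˣ => red_lin hα ((u : ZMod q) * g)
  obtain ⟨b, hb⟩ : ∃ b : (ZMod q)ˣ → ZMod q, b = fun u : (ZMod q)ˣ => (u : ZMod q) ^ 2 * a - (α : ZMod q) * t u ^ 2 -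
    (u : ZMod q) * g * t u := ⟨_, rfl⟩
  have hu : ∀ u : (ZMod q)ˣ, ‖Sq α ((r u : ℕ) : ZMod q) χ (b u)‖ = ‖Sq α g χ a‖ := by
    intro u
    rw [← Sq_unit α g χ a (t u) u, ht u, hb]
  obtain ⟨D, hD⟩ : ∃ D : ZMod q, D = 4 * (α : ZMod q) * a + g ^ 2 := ⟨_, rfl⟩
  rw [← hD]
  have hdisc : ∀ u : (ZMod q)ˣ, (u : ZMod q) ^ 2 * D = 4 * (α : ZMod q) * b u + ((r u : ℕ) : ZMod q) ^ 2 := by
    intro u
    rw [← ht u, hb, hD]
    ring
  have hnat : ((2 * α.natAbs : ℕ) : ℝ) = 2 * |(α : ℝ)| := by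
    push_cast
    rw [Nat.cast_natAbs, Int.cast_abs]
  calc (q.totient : ℝ) * ‖Sq α g χ a‖ ^ 2 = ∑ u : (ZMod q)ˣ, ‖Sq α ((r u : ℕ) : ZMod q) χ (b u)‖ ^ 2 := by
        simp_rw [hu]
        rw [Finset.sum_const, nsmul_eq_mul, Finset.card_univ, ZMod.card_units_eq_totient]
    _ = ∑ p ∈ range (2 * α.natAbs) ×ˢ (univ : Finset (ZMod q)),
          ∑ u ∈ univ.filter (fun u : (ZMod q)ˣ => (r u, b u) = p),
          ‖Sq α ((r u : ℕ) : ZMod q) χ (b u)‖ ^ 2 := by
        rw [Finset.sum_fiberwise_of_maps_to]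
        intro u _
        rw [mem_product, mem_range]
        exact ⟨hr u, mem_univ _⟩
    _ ≤ ∑ p ∈ range (2 * α.natAbs) ×ˢ (univ : Finset (ZMod q)),
          (2 * Nat.gcd D.val q * q.divisors.card : ℝ) * ‖Sq α ((p.1 : ℕ) : ZMod q) χ p.2‖ ^ 2 := by
        refine sum_le_sum fun p _ => ?_
        have e1 : ∑ u ∈ univ.filter (fun u : (ZMod q)ˣ => (r u, b u) = p),
            ‖Sq α ((r u : ℕ) : ZMod q) χ (b u)‖ ^ 2 =
            ((univ.filter (fun u : (ZMod q)ˣ => (r u, b u) = p)).card : ℝ) *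
              ‖Sq α ((p.1 : ℕ) : ZMod q) χ p.2‖ ^ 2 := by
          rw [← nsmul_eq_mul, ← sum_const]
          refine sum_congr rfl fun u hu => ?_
          have h1 := (mem_filter.1 hu).2
          rw [← h1]
        rw [e1]
        apply mul_le_mul_of_nonneg_right _ (sq_nonneg _)
        have h2 : (univ.filter (fun u : (ZMod q)ˣ => (r u, b u) = p)) ⊆
            univ.filter (fun u : (ZMod q)ˣ => (u : ZMod q) ^ 2 * D = 4 * (α : ZMod q) * p.2 + ((p.1 : ℕ) : ZMod q) ^ 2) := by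
          intro u hu
          rw [mem_filter] at hu ⊢
          refine ⟨mem_univ _, ?_⟩
          rw [← hu.2]
          exact hdisc u
        have h3 := (card_le_card h2).trans (sol_sq D (4 * (α : ZMod q) * p.2 + ((p.1 : ℕ) : ZMod q) ^ 2))
        exact_mod_cast h3
    _ = (2 * Nat.gcd D.val q * q.divisors.card : ℝ) * ∑ s ∈ range (2 * α.natAbs),
          ∑ c : ZMod q, ‖Sq α ((s : ℕ) : ZMod q) χ c‖ ^ 2 := by
        rw [sum_product, mul_sum]
        refine sum_congr rfl fun s _ => ?_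
        rw [mul_sum]
    _ ≤ (2 * Nat.gcd D.val q * q.divisors.card : ℝ) * ∑ _s ∈ range (2 * α.natAbs),
          ((q / Real.sqrt χ.conductor * (1 + Real.log q)) ^ 2 * (2 * |(α : ℝ)| * (q.divisors.card * q))) := by
        apply mul_le_mul_of_nonneg_left _ (by positivity)
        exact sum_le_sum fun s _ => Sq_mean hα _ χ
    _ = _ := by
        rw [sum_const, card_range, nsmul_eq_mul, hnat]
        ring

end Pool.Agent.R460.SB
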