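import Pool.Agent.R460.SB.Pars
import Pool.Agent.R460.SQ.Model

set_option autoImplicit false

/-! The statements. -/

namespace Pool.Agent.R460.SB

open Finset
open Pool.Agent.Y883.GJ
open Pool.Agent.R460.GS
open Pool.Agent.H373R2.T7 (Vz)
open Pool.Agent.R460.SQ (cls DZ)

/-- CORESQ: the mean square of the correlation in a residue class -/
def CoreSqStm : Prop := ∀ α γ : ℤ, α ≠ 0 → ∀ (A T : ℕ) (ρ : ℝ), 0 < ρ → ∃ C A₂ : ℕ, ∀ C₃ : ℕ, ∃ K U N₀ : ℕ,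
  ∀ N : ℕ, N₀ ≤ N → ∀ G : ℕ → ℂ, (∀ n ∈ Icc 1 N, ‖G n‖ ≤ Real.log N ^ 2) → MajAt N (1 / 10) A₂ C C₃ G →
  ApAt N K U G → NcAt N U G →
  ∀ (q : ℕ) [NeZero q], (q : ℝ) ≤ (N : ℝ) ^ (1 / 2 - ρ) → (q.divisors.card : ℝ) ≤ Real.log N ^ T →
  ∀ a : ZMod q, (Nat.gcd (4 * (α : ZMod q) * a + (γ : ZMod q) ^ 2).val q : ℝ) ≤ Real.log N ^ T →
    ∀ y : ℕ, y ^ 2 ≤ N →
    ∑ n ∈ cls ((α.natAbs + γ.natAbs + 1) * N) q a, ‖cvs α γ G y N n‖ ^ 2 ≤ (N : ℝ) ^ 2 / (q * Real.log N ^ A)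

/-- ERRSQ: the error terms -/
def ErrSqStm : Prop := ∀ α γ : ℤ, α ≠ 0 → ∀ (A T : ℕ) (ρ : ℝ), 0 < ρ → ∃ B : ℕ, ∀ E : ℕ, ∃ N₀ : ℕ,
  ∀ N : ℕ, N₀ ≤ N → ∀ z : ℕ, Real.log N ^ B ≤ z → (z : ℝ) ≤ Real.log N ^ E → (Vz z)⁻¹ ≤ Real.log N ∧
  ∀ (q : ℕ) [NeZero q], (q : ℝ) ≤ (N : ℝ) ^ (1 / 2 - ρ) → (q.divisors.card : ℝ) ≤ Real.log N ^ T →
  ∀ a : ZMod q, (Nat.gcd (4 * (α : ZMod q) * a + (γ : ZMod q) ^ 2).val q : ℝ) ≤ Real.log N ^ T →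
    ∀ y : ℕ, y ^ 2 ≤ N →
    ∑ n ∈ cls ((α.natAbs + γ.natAbs + 1) * N) q a, ‖cvs α γ (DZ z) y N n‖ ^ 2 ≤ (N : ℝ) ^ 2 / (q * Real.log N ^ A)

end Pool.Agent.R460.SB
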