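import Pool.Agent.R460.SB.Core
import Pool.Agent.R460.SQ.Model

set_option autoImplicit false

/-! The error terms. -/

namespace Pool.Agent.R460.SB

open Finset
open Pool.Agent.R460.GS
open Pool.Agent.R460.GH
open Pool.Agent.H807R2.Dav (ee norm_ee)
open Pool.Agent.H373R2.T7 (lamz Vz pz lamz_ap lam_ap Vz_pos)
open Pool.Agent.Y883.T3 (lsh)
open Pool.Agent.Y883.GJ
open Pool.Agent.Y614.GJ.Core (ev_log)
open Pool.Agent.R460.SQ (DZ EZ EZ_sq maj_DZ ap_DZ nc_DZ bd_DZ cls)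

theorem err_Sq (hCore : CoreSqStm) (hL2 : L2Stm) (hB3 : BilMaj3Stm) (hTM : TiMaj2Stm)
    (hLsh : LshStm) (hModel : ModelStm) : ErrSqStm := by
  intro α γ hα A T ρ hρ
  obtain ⟨C, A₂, hC1⟩ := hCore α γ hα A T ρ hρ
  obtain ⟨C₃, Nm1, hm1⟩ := mLA hL2 hB3 (A₂ + 2 + 2) C (ρ := 1 / 15) (by norm_num)
  obtain ⟨Nm2, hm2⟩ := mHU hTM hLsh (A₂ + 2 + 2) C (ρ := 1 / 10) (by norm_num)
  obtain ⟨K, U, Nc, hC2⟩ := hC1 C₃
  obtain ⟨U₁, hU₁⟩ : ∃ U₁, U₁ = (U + 1) + (2 * (A₂ + 3) + 14) := ⟨_, rfl⟩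
  obtain ⟨Bm, hBm⟩ := hModel U₁
  refine ⟨max Bm K, fun E => ?_⟩
  obtain ⟨Nmo, hmo⟩ := hBm E
  obtain ⟨Nl, hl⟩ := lamz_ap E (U + 1)
  obtain ⟨Na, ha⟩ := lam_ap K (U + 1)
  obtain ⟨Ne, hNe⟩ := Filter.eventually_atTop.1 (ev_log 1 (s := 1) (by norm_num) 200)
  refine ⟨Nm1 + Nm2 + Nc + Nmo + Nl + Na + Ne + 1, fun N hN z hz1 hz2 => ?_⟩
  have hN1 : 1 ≤ N := by omega
  obtain ⟨hLe, -⟩ := hNe N (by omega)
  have hL1 : 1 ≤ Real.log N := by linarith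
  have hL2' : 2 ≤ Real.log N := by linarith
  have hzB : Real.log N ^ Bm ≤ z := (pow_le_pow_right₀ hL1 (le_max_left _ _)).trans hz1
  have hzK : Real.log N ^ K ≤ z := (pow_le_pow_right₀ hL1 (le_max_right _ _)).trans hz1
  have hz1' : 1 ≤ z := by
    have : (1 : ℝ) ≤ z := (one_le_pow₀ hL1).trans hz1
    exact_mod_cast this
  obtain ⟨r, hPar, hsum⟩ := hmo N (by omega) z hzB hz2
  have hdiv : ∀ V : ℕ, V ≤ U₁ → (N : ℝ) / Real.log N ^ U₁ ≤ N / Real.log N ^ V := fun V hV =>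
    div_le_div_of_nonneg_left (Nat.cast_nonneg _) (by positivity) (pow_le_pow_right₀ hL1 hV)
  refine ⟨hPar.hV, ?_⟩
  intro q _ hq hτ a hgcd y hy
  have hMajF : MajAt N (1 / 10) (A₂ + 2) C C₃ (FF z r) := by
    have h1 := hm1 N (by omega)
    rw [show (1 / 30 + 1 / 15 : ℝ) = 1 / 10 by norm_num] at h1
    exact maj_FF hL2' h1 (fun q _ hq => hm2 N (by omega) q hq z r hPar.hD hPar.hV)
  have hE : ∑ n ∈ Icc 1 N, ‖EZ z r n‖ ^ 2 ≤ N / Real.log N ^ (A₂ + 3) :=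
    EZ_sq (par_mono hL1 (Nat.zero_le _) hPar) hLe hN1 (hsum.trans (hdiv _ (by omega)))
  have hMaj := maj_DZ hL2 (by norm_num) hL2' hN1 hMajF hE
  have hAp : ApAt N K U (DZ z) := by
    refine ap_DZ hL2' ?_ (ha N (by omega))
    intro q hq hqK c y hy
    refine hl N (by omega) z hz1' hz2 q hq ?_ c y hy
    exact_mod_cast hqK.trans hzK
  have hNc : NcAt N U (DZ z) := nc_DZ (par_mono hL1 (by omega) hPar) hL2' (hsum.trans (hdiv _ (by omega)))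
  exact hC2 N (by omega) (DZ z) (fun n hn => bd_DZ hPar.hV hL1 hn) hMaj hAp hNc q hq hτ a hgcd y hy

theorem errSq_all : ErrSqStm :=
  err_Sq (coreSq Pool.Agent.Y297.GJ.orth Pool.Agent.Y812.GJ.nonU) Pool.Agent.Y812.GJ.l2
    (bilMaj3 Pool.Agent.Y812.GJ.l2 (countK Pool.Agent.Y812.GJ.l2)) (tiMaj2 Pool.Agent.Y812.GJ.l2)
    Pool.Agent.Y812.GJ.lsh_le Pool.Agent.Y883.GJ.model_all

end Pool.Agent.R460.SB
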