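import Pool.Agent.R460.SB.Main
import Pool.Agent.R460.SB.Mod

set_option autoImplicit false

/-! Prime values of quadratic polynomials whose constant term runs over a residue class. -/

namespace Pool.Agent.R460.SB

open Finset
open Pool.Agent.H373R2.T7 (lamz Vz pz Vz_pos Vz_inv_small nuB nuB_le mem_pz)
open Pool.Agent.Y614.GJ.Core (ev_log)
open Pool.Agent.R460.SQ (thp)

lemma fac_low {α γ : ℤ} (hα : α ≠ 0) (n : ℤ) {p : ℕ} (hp : p.Prime) (hloc : nuB (QS α γ n) p < p) :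
    (if (p : ℤ) ∣ α then 1 / (α.natAbs : ℝ) else 1) * (1 - 1 / (p : ℝ)) ^ 3 ≤
      1 - (nuB (QS α γ n) p : ℝ) / p := by
  have hp2 : (2 : ℝ) ≤ p := by exact_mod_cast hp.two_le
  have hp0 : (0 : ℝ) < p := by linarith
  have h1 : 1 / (p : ℝ) ≤ 1 / 2 := one_div_le_one_div_of_le two_pos hp2
  have h1' : 0 < 1 / (p : ℝ) := by positivity
  have h2 : (nuB (QS α γ n) p : ℝ) + 1 ≤ p := by exact_mod_cast hloc
  have h3 : 1 / (p : ℝ) ≤ 1 - (nuB (QS α γ n) p : ℝ) / p := by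
    rw [le_sub_iff_add_le, ← add_div, div_le_one hp0]
    linarith
  have h4 : (1 - 1 / (p : ℝ)) ^ 3 ≤ 1 := pow_le_one₀ (by linarith) (by linarith)
  have h4' : 0 ≤ (1 - 1 / (p : ℝ)) ^ 3 := pow_nonneg (by linarith) 3
  split_ifs with hpa
  · have h5 : p ≤ α.natAbs := by
      apply Nat.le_of_dvd (Int.natAbs_pos.2 hα)
      have := Int.natAbs_dvd_natAbs.2 hpa
      rwa [Int.natAbs_natCast] at this
    have h6 : (p : ℝ) ≤ α.natAbs := by exact_mod_cast h5
    have h7 : 1 / (α.natAbs : ℝ) ≤ 1 / p := one_div_le_one_div_of_le hp0 h6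
    have h8 : 0 < 1 / (α.natAbs : ℝ) := by
      have : (0 : ℝ) < α.natAbs := by linarith
      positivity
    nlinarith
  · rw [one_mul]
    rcases hp.eq_two_or_odd' with h5 | h5
    · subst h5
      refine le_trans ?_ h3
      norm_num
    · have h6 : 3 ≤ p := by
        rcases h5 with ⟨k, hk⟩
        have := hp.two_le
        omega
      have h3r : (3 : ℝ) ≤ p := by exact_mod_cast h6
      have h7 : (nuB (QS α γ n) p : ℝ) ≤ 2 := by exact_mod_cast QS_two n p hp hpa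
      have h8 : (nuB (QS α γ n) p : ℝ) / p ≤ 2 / p := by gcongr
      have h9 : (1 - 1 / (p : ℝ)) ^ 3 ≤ 1 - 2 / p := by
        have e : 1 - 2 / (p : ℝ) - (1 - 1 / (p : ℝ)) ^ 3 = ((p : ℝ) ^ 2 - 3 * p + 1) / p ^ 3 := by
          field_simp
          ring
        have e2 : 0 ≤ ((p : ℝ) ^ 2 - 3 * p + 1) / p ^ 3 := by
          apply div_nonneg _ (by positivity)
          nlinarith
        linarith
      linarith

/-- the lower bound for the singular series -/
lemma Sz_low {α γ : ℤ} (hα : α ≠ 0) (n : ℤ) (z : ℕ) (hloc : ∀ p ∈ pz z, nuB (QS α γ n) p < p) :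
    (1 / (α.natAbs : ℝ)) ^ α.natAbs * Vz z ^ 2 ≤ Sz α γ n z := by
  have hV := Vz_pos z
  have ha1 : (1 : ℝ) ≤ α.natAbs := by exact_mod_cast Int.natAbs_pos.2 hα
  have ha0 : 0 < 1 / (α.natAbs : ℝ) := by positivity
  have ha2 : 1 / (α.natAbs : ℝ) ≤ 1 := by rw [div_le_one (by linarith)]; exact ha1
  have h1 : (1 / (α.natAbs : ℝ)) ^ α.natAbs * Vz z ^ 3 ≤ ∏ p ∈ pz z, (1 - (nuB (QS α γ n) p : ℝ) / p) := by
    calc (1 / (α.natAbs : ℝ)) ^ α.natAbs * Vz z ^ 3 ≤
          (∏ p ∈ pz z, (if (p : ℤ) ∣ α then 1 / (α.natAbs : ℝ) else 1)) * Vz z ^ 3 := by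
          apply mul_le_mul_of_nonneg_right _ (by positivity)
          rw [← prod_filter, prod_const]
          apply pow_le_pow_of_le_one ha0.le ha2
          have hsub : (pz z).filter (fun p : ℕ => (p : ℤ) ∣ α) ⊆ Icc 1 α.natAbs := by
            intro p hp
            rw [mem_filter, mem_pz] at hp
            rw [mem_Icc]
            refine ⟨hp.1.2.one_le, ?_⟩
            apply Nat.le_of_dvd (Int.natAbs_pos.2 hα)
            have := Int.natAbs_dvd_natAbs.2 hp.2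
            rwa [Int.natAbs_natCast] at this
          have := card_le_card hsub
          rwa [Nat.card_Icc, Nat.add_sub_cancel] at this
      _ = ∏ p ∈ pz z, ((if (p : ℤ) ∣ α then 1 / (α.natAbs : ℝ) else 1) * (1 - 1 / (p : ℝ)) ^ 3) := by
          unfold Vz
          rw [prod_mul_distrib, prod_pow]
      _ ≤ _ := by
          apply prod_le_prod
          · intro p hp
            have hp2 : (2 : ℝ) ≤ p := by exact_mod_cast (mem_pz.1 hp).2.two_le
            have h3 : 1 / (p : ℝ) ≤ 1 := by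
              rw [div_le_one (by linarith)]
              linarith
            have h4 : 0 ≤ (1 - 1 / (p : ℝ)) ^ 3 := pow_nonneg (by linarith) 3
            split_ifs
            · positivity
            · rw [one_mul]
              exact h4
          · intro p hp
            exact fac_low hα n (mem_pz.1 hp).2 (hloc p hp)
  unfold Sz
  calc (1 / (α.natAbs : ℝ)) ^ α.natAbs * Vz z ^ 2 =
        (Vz z)⁻¹ * ((1 / (α.natAbs : ℝ)) ^ α.natAbs * Vz z ^ 3) := by field_simp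
    _ ≤ _ := by gcongr

lemma loc_lt {α γ n : ℤ} {p : ℕ} (hp : p.Prime) (h : ∃ m : ℕ, ¬ (p : ℤ) ∣ fv α γ n m) : nuB (QS α γ n) p < p := by
  classical
  obtain ⟨m, hm⟩ := h
  have h1 : ¬ QS α γ n p (m % p) := by
    rw [← QS_per]
    exact hm
  unfold nuB
  have h2 : (range p).filter (fun r => QS α γ n p r) ⊆ (range p).erase (m % p) := by
    intro r hr
    rw [mem_filter] at hr
    rw [mem_erase]
    refine ⟨fun h => h1 ?_, hr.1⟩
    rw [← h]
    exact hr.2
  have h3 := card_le_card h2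
  rw [card_erase_of_mem (mem_range.2 (Nat.mod_lt m hp.pos)), card_range] at h3
  have h4 := hp.pos
  have h5 : ((range p).filter (fun r => QS α γ n p r)).card < p := by omega
  convert h5 using 1

lemma Sz_prod (α γ n : ℤ) (z : ℕ) : Sz α γ n z = ∏ p ∈ pz z, (1 - (nuB (QS α γ n) p : ℝ) / p) / (1 - 1 / (p : ℝ)) := by
  unfold Sz Vz
  rw [prod_div_distrib, div_eq_inv_mul]

/-- the conclusion for one polynomial -/
def GoodF (α γ : ℤ) (C N z : ℕ) (n : ℤ) : Prop :=
  ((∀ p : ℕ, p.Prime → ∃ m : ℕ, ¬ (p : ℤ) ∣ fv α γ n m) →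
    ∃ m : ℕ, 1 ≤ m ∧ m ^ 2 ≤ N ∧ (fv α γ n m).natAbs.Prime) ∧
  ∀ y : ℕ, y ^ 2 ≤ N →
    |∑ m ∈ Icc 1 y, thp (fv α γ n m).natAbs - Sz α γ n z * y| ≤ Real.sqrt N / Real.log N ^ C

open Classical in
theorem fin_sb {α γ : ℤ} (hα : α ≠ 0) (ρ : ℝ) (hρ : 0 < ρ) (A C T : ℕ) :
    ∃ B : ℕ, ∀ E : ℕ, ∃ N₀ : ℕ, ∀ N : ℕ, N₀ ≤ N → ∀ z : ℕ, Real.log N ^ B ≤ z → (z : ℝ) ≤ Real.log N ^ E →
      ∀ q : ℕ, 1 ≤ q → (q : ℝ) ≤ (N : ℝ) ^ (1 / 2 - ρ) → (q.divisors.card : ℝ) ≤ Real.log N ^ T →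
      ∀ b : ℤ, (Int.gcd (4 * α * b + γ ^ 2) q : ℝ) ≤ Real.log N ^ T →
        (((Icc (-(N : ℤ)) N).filter (fun n : ℤ => n ≡ b [ZMOD q] ∧ ¬ GoodF α γ C N z n)).card : ℝ) ≤
          (N : ℝ) / (q * Real.log N ^ A) := by
  obtain ⟨B, hB⟩ := sq_main errSq_all (γ := γ) hα ρ hρ A (C + 4) T
  refine ⟨B, fun E => ?_⟩
  obtain ⟨N₁, h1⟩ := hB E
  obtain ⟨N₂, h2⟩ := Vz_inv_small E
  obtain ⟨κ, hκ⟩ : ∃ κ : ℝ, κ = (1 / (α.natAbs : ℝ)) ^ α.natAbs := ⟨_, rfl⟩
  have ha1 : (1 : ℝ) ≤ α.natAbs := by exact_mod_cast Int.natAbs_pos.2 hα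
  have hκ0 : 0 < κ := by rw [hκ]; positivity
  obtain ⟨N₃, h3⟩ := Filter.eventually_atTop.1 (ev_log 1 (s := 1 / 2) (by norm_num) (100 + 2 / κ))
  refine ⟨N₁ + N₂ + N₃ + 3, fun N hN z hz1 hz2 q hq1 hqN hτ b hb => ?_⟩
  have hN1 : 1 ≤ N := by omega
  have hN0 : (0 : ℝ) < N := by exact_mod_cast hN1
  obtain ⟨hLb, hLp⟩ := h3 N (by omega)
  have c1 := h1 N (by omega) z hz1 hz2 q hq1 hqN hτ b hb
  refine le_trans ?_ c1
  have hsub : (Icc (-(N : ℤ)) N).filter (fun n : ℤ => n ≡ b [ZMOD q] ∧ ¬ GoodF α γ C N z n) ⊆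
      badSq α γ (C + 4) N z q b := by
    intro n hn
    rw [mem_filter] at hn
    unfold badSq
    rw [mem_filter]
    refine ⟨hn.1, (ZMod.intCast_eq_intCast_iff _ _ _).2 hn.2.1, fun hg => hn.2.2 ?_⟩
    obtain ⟨L, hLd⟩ : ∃ L, L = Real.log (N : ℝ) := ⟨_, rfl⟩
    rw [← hLd] at hLb hLp hz1 hz2
    have h2κ : 0 < 2 / κ := by positivity
    have hL100 : 100 ≤ L := by linarith
    have hL0 : 0 < L := by linarith
    have hL1 : 1 ≤ L := by linarith
    have hκL : 2 ≤ κ * L := by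
      have : 2 / κ ≤ L := by linarith
      rw [div_le_iff₀ hκ0] at this
      linarith
    obtain ⟨M, hM⟩ : ∃ M, M = Real.sqrt N := ⟨_, rfl⟩
    have hM0 : 0 < M := by rw [hM]; exact Real.sqrt_pos.2 hN0
    have hMr : M = (N : ℝ) ^ (1 / 2 : ℝ) := by rw [hM, Real.sqrt_eq_rpow]
    have hML : 100 ≤ M := by
      rw [hMr]
      rw [pow_one] at hLp
      linarith
    refine ⟨fun hloc => ?_, fun y hy => (hg y hy).trans ?_⟩
    · obtain ⟨y, hy⟩ : ∃ y, y = Nat.sqrt N := ⟨_, rfl⟩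
      have hy1 : y ^ 2 ≤ N := by rw [hy]; exact Nat.sqrt_le' N
      have hy2 : N < (y + 1) ^ 2 := by rw [hy]; exact Nat.lt_succ_sqrt' N
      have h6 := hg y hy1
      rw [← hM, ← hLd] at h6
      by_contra hno
      have h7 : ∑ m ∈ Icc 1 y, thp (fv α γ n m).natAbs = 0 := by
        apply sum_eq_zero
        intro m hm
        unfold thp
        rw [if_neg]
        intro hp
        apply hno
        rw [mem_Icc] at hm
        exact ⟨m, hm.1, (Nat.pow_le_pow_left hm.2 2).trans hy1, hp⟩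
      rw [h7, zero_sub, abs_neg] at h6
      have hz0 : 1 ≤ z := by
        have : (1 : ℝ) ≤ z := (one_le_pow₀ hL1).trans hz1
        exact_mod_cast this
      have hV := h2 N (by omega) z hz0 (by rw [← hLd]; exact hz2)
      rw [← hLd] at hV
      have hS := Sz_low hα n z (fun p hp => loc_lt (mem_pz.1 hp).2 (hloc p (mem_pz.1 hp).2))
      rw [← hκ] at hS
      have hVp := Vz_pos z
      have hV2 : κ * (1 / L ^ 2) ≤ Sz α γ n z := by
        refine le_trans ?_ hS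
        have : 1 / L ≤ Vz z := by
          rw [one_div]
          exact inv_le_of_inv_le₀ hVp hV
        apply mul_le_mul_of_nonneg_left _ hκ0.le
        calc 1 / L ^ 2 = (1 / L) ^ 2 := by rw [div_pow, one_pow]
          _ ≤ Vz z ^ 2 := by gcongr
      have hyr : M / 2 ≤ y := by
        have e1 : M < y + 1 := by
          rw [hM]
          have e2 : (N : ℝ) < ((y : ℝ) + 1) ^ 2 := by exact_mod_cast hy2
          rw [Real.sqrt_lt' (by positivity)]
          exact e2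
        linarith
      have h8 : Sz α γ n z * y ≤ M / L ^ (C + 4) := le_trans (le_abs_self _) h6
      have h9 : κ * (1 / L ^ 2) * (M / 2) ≤ M / L ^ (C + 4) := by
        refine le_trans ?_ h8
        exact mul_le_mul hV2 hyr (by positivity) (le_trans (by positivity) hV2)
      have h10 : M / L ^ (C + 4) = κ * (1 / L ^ 2) * (M / 2) * (2 / (κ * L ^ (C + 2))) := by
        have : L ^ (C + 4) = L ^ 2 * L ^ (C + 2) := by ring
        rw [this]
        field_simp
      rw [h10] at h9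
      have h11 : 2 / (κ * L ^ (C + 2)) < 1 := by
        rw [div_lt_one (by positivity)]
        have a1 : L ^ 2 ≤ L ^ (C + 2) := pow_le_pow_right₀ hL1 (by omega)
        have a2 : κ * L ^ 2 ≤ κ * L ^ (C + 2) := by gcongr
        nlinarith
      have h12 : 0 < κ * (1 / L ^ 2) * (M / 2) := by positivity
      nlinarith
    · rw [← hM, ← hLd]
      apply div_le_div_of_nonneg_left hM0.le (by positivity)
      exact pow_le_pow_right₀ hL1 (by omega)
  exact_mod_cast card_le_card hsub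

end Pool.Agent.R460.SB
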