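import Pool.Agent.R460.SB.Fin

set_option autoImplicit false

/-! The number of the roots and the Legendre symbol. -/

namespace Pool.Agent.R460.SB

open Finset
open Pool.Agent.H373R2.T7 (nuB nuB_le pz mem_pz)

lemma nu_zmod (α γ n : ℤ) {p : ℕ} [Fact p.Prime] : nuB (QS α γ n) p =
    (univ.filter (fun x : ZMod p => (n : ZMod p) - ((α : ZMod p) * x ^ 2 + (γ : ZMod p) * x) = 0)).card := by
  classical
  have hp : p.Prime := Fact.out
  unfold nuB
  have h : ((range p).filter (fun r => QS α γ n p r)).card =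
      (univ.filter (fun x : ZMod p => (n : ZMod p) - ((α : ZMod p) * x ^ 2 + (γ : ZMod p) * x) = 0)).card := by
    refine card_nbij' (fun r : ℕ => (r : ZMod p)) (fun x => x.val) ?_ ?_ ?_ ?_
    · intro r hr
      rw [mem_coe, mem_filter] at hr ⊢
      refine ⟨mem_univ _, ?_⟩
      have h1 := hr.2
      unfold QS at h1
      rw [← ZMod.intCast_zmod_eq_zero_iff_dvd] at h1
      push_cast at h1
      exact h1
    · intro x hx
      rw [mem_coe, mem_filter] at hx ⊢
      refine ⟨mem_range.2 (ZMod.val_lt x), ?_⟩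
      unfold QS
      rw [← ZMod.intCast_zmod_eq_zero_iff_dvd]
      push_cast
      rw [ZMod.natCast_zmod_val]
      exact hx.2
    · intro r hr
      rw [mem_coe, mem_filter, mem_range] at hr
      simp only
      rw [ZMod.val_natCast, Nat.mod_eq_of_lt hr.1]
    · intro x _
      simp only
      exact ZMod.natCast_zmod_val x
  convert h using 1

/-- the number of the roots modulo an odd prime which does not divide `α` -/
lemma nu_leg (α γ n : ℤ) {p : ℕ} (hp : p.Prime) (h2 : p ≠ 2) (hpa : ¬ (p : ℤ) ∣ α) :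
    (nuB (QS α γ n) p : ℤ) = 1 + jacobiSym (4 * α * n + γ ^ 2) p := by
  have : Fact p.Prime := ⟨hp⟩
  have hα : (α : ZMod p) ≠ 0 := by
    intro h
    exact hpa ((ZMod.intCast_zmod_eq_zero_iff_dvd _ _).1 h)
  have h20 : (2 : ZMod p) ≠ 0 := by
    intro h
    have h3 : ((2 : ℕ) : ZMod p) = 0 := by exact_mod_cast h
    rw [ZMod.natCast_eq_zero_iff] at h3
    exact h2 ((Nat.prime_dvd_prime_iff_eq hp Nat.prime_two).1 h3)
  rw [← jacobiSym.legendreSym.to_jacobiSym, add_comm, ← legendreSym.card_sqrts p h2, nu_zmod]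
  congr 1
  refine card_nbij' (fun x : ZMod p => 2 * (α : ZMod p) * x + (γ : ZMod p))
    (fun y : ZMod p => (y - (γ : ZMod p)) / (2 * (α : ZMod p))) ?_ ?_ ?_ ?_
  · intro x hx
    rw [mem_coe, mem_filter] at hx
    rw [mem_coe, Set.mem_toFinset, Set.mem_setOf_eq]
    have h1 := hx.2
    push_cast
    linear_combination (-4 * (α : ZMod p)) * h1
  · intro y hy
    rw [mem_coe, Set.mem_toFinset, Set.mem_setOf_eq] at hy
    rw [mem_coe, mem_filter]
    refine ⟨mem_univ _, ?_⟩
    push_cast at hy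
    field_simp
    linear_combination -hy
  · intro x _
    simp only
    field_simp
    ring
  · intro y _
    simp only
    field_simp
    ring

/-- one factor of the singular series of `m² + a` -/
lemma fac_leg (a : ℤ) {p : ℕ} (hp : p.Prime) (h2 : p ≠ 2) :
    (1 - (nuB (QS (-1) 0 a) p : ℝ) / p) / (1 - 1 / (p : ℝ)) = 1 - (jacobiSym (-a) p : ℝ) / ((p : ℝ) - 1) := by
  have hp2 : (2 : ℝ) ≤ p := by exact_mod_cast hp.two_le
  have hpa : ¬ (p : ℤ) ∣ -1 := by
    intro h
    rw [Int.dvd_neg] at h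
    have := Int.le_of_dvd one_pos h
    have := hp.two_le
    omega
  have h1 := nu_leg (-1) 0 a hp h2 hpa
  have h3 : jacobiSym (4 * -1 * a + 0 ^ 2) p = jacobiSym (-a) p := by
    have e : (4 * -1 * a + 0 ^ 2 : ℤ) = 2 ^ 2 * (-a) := by ring
    rw [e, jacobiSym.mul_left, jacobiSym.pow_left]
    have h4 : jacobiSym 2 p ^ 2 = 1 := by
      apply jacobiSym.sq_one
      have := (Nat.coprime_primes Nat.prime_two hp).2 (Ne.symm h2)
      exact_mod_cast this
    rw [h4, one_mul]
  rw [h3] at h1
  have h5 : (nuB (QS (-1) 0 a) p : ℝ) = 1 + (jacobiSym (-a) p : ℝ) := by exact_mod_cast h1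
  rw [h5]
  have h6 : (p : ℝ) ≠ 0 := by linarith
  have h7 : (p : ℝ) - 1 ≠ 0 := by linarith
  field_simp
  ring

lemma nu_two (a : ℤ) : nuB (QS (-1) 0 a) 2 = 1 := by
  classical
  unfold nuB
  have h : ((range 2).filter (fun r => QS (-1) 0 a 2 r)).card = 1 := by
    rw [card_eq_one]
    rcases Int.even_or_odd a with h0 | h0
    · refine ⟨0, ?_⟩
      ext r
      rw [mem_filter, mem_range, mem_singleton]
      unfold QS
      obtain ⟨k, hk⟩ := h0
      constructor
      · rintro ⟨h1, h2⟩
        interval_cases r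
        · rfl
        · norm_num at h2
          omega
      · rintro rfl
        refine ⟨by norm_num, ?_⟩
        norm_num
        omega
    · refine ⟨1, ?_⟩
      ext r
      rw [mem_filter, mem_range, mem_singleton]
      unfold QS
      obtain ⟨k, hk⟩ := h0
      constructor
      · rintro ⟨h1, h2⟩
        interval_cases r
        · norm_num at h2
          omega
        · rfl
      · rintro rfl
        refine ⟨by norm_num, ?_⟩
        norm_num
        omega
  convert h using 1

/-- the singular series of `m² + a` with the Legendre symbol -/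
lemma Sz_leg (a : ℤ) (z : ℕ) : Sz (-1) 0 a z =
    ∏ w ∈ (Icc 3 z).filter Nat.Prime, (1 - (jacobiSym (-a) w : ℝ) / ((w : ℝ) - 1)) := by
  rw [Sz_prod]
  have e : pz z = ((Icc 3 z).filter Nat.Prime) ∪ ((Icc 1 z).filter (fun p => p = 2)) := by
    ext p
    rw [mem_pz, mem_union, mem_filter, mem_filter, mem_Icc, mem_Icc]
    constructor
    · rintro ⟨h1, h2⟩
      by_cases h3 : p = 2
      · right
        exact ⟨⟨h2.one_le, h1⟩, h3⟩
      · left
        have := h2.two_le
        exact ⟨⟨by omega, h1⟩, h2⟩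
    · rintro (⟨⟨h1, h2⟩, h3⟩ | ⟨⟨h1, h2⟩, h3⟩)
      · exact ⟨h2, h3⟩
      · rw [h3] at h2 ⊢
        exact ⟨h2, Nat.prime_two⟩
  rw [e, prod_union]
  · have e2 : ∏ p ∈ (Icc 1 z).filter (fun p => p = 2),
        (1 - (nuB (QS (-1) 0 a) p : ℝ) / p) / (1 - 1 / (p : ℝ)) = 1 := by
      apply prod_eq_one
      intro p hp
      rw [(mem_filter.1 hp).2, nu_two]
      norm_num
    rw [e2, mul_one]
    refine prod_congr rfl fun p hp => ?_
    rw [mem_filter, mem_Icc] at hp
    exact fac_leg a hp.2 (by omega)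
  · rw [disjoint_left]
    intro p h1 h2
    rw [mem_filter, mem_Icc] at h1
    have := (mem_filter.1 h2).2
    omega

end Pool.Agent.R460.SB
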