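import Pool.Agent.R460.SB.Abs
import Pool.Agent.R460.SB.Stm
import Pool.Agent.R460.SQ.Main

set_option autoImplicit false

/-! The number of the exceptional integers in a residue class. -/

namespace Pool.Agent.R460.SB

open Finset
open Pool.Agent.H373R2.T7 (lamz Vz pz Vz_pos Vz_inv_small)
open Pool.Agent.R460.GS (gcd_toNat)
open Pool.Agent.Y614.GJ.Core (ev_log)
open Pool.Agent.R460.SQ (thp ppw vm_split ppw_nn sum_ppw DZ cls)

/-- the property of the integer `n` -/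
def GoodSq (α γ : ℤ) (C X z : ℕ) (n : ℤ) : Prop :=
  ∀ y : ℕ, y ^ 2 ≤ X →
    |∑ m ∈ Icc 1 y, thp (fv α γ n m).natAbs - Sz α γ n z * y| ≤ Real.sqrt X / Real.log X ^ C

lemma sum_ppw' {N : ℕ} (hN : 1 ≤ N) : ∑ l ∈ range (N + 1), ppw l ≤ 2 * Real.sqrt N * Real.log N := by
  have e : range (N + 1) = insert 0 (Icc 1 N) := by
    ext b
    rw [mem_range, mem_insert, mem_Icc]
    omega
  have e2 : ppw 0 = 0 := by
    unfold ppw
    rw [if_neg Nat.not_prime_zero, ArithmeticFunction.map_zero]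
  rw [e, sum_insert (by rw [mem_Icc]; omega), e2, zero_add]
  exact sum_ppw hN

lemma pp_half {α γ : ℤ} {N m : ℕ} (hN1 : 1 ≤ N) (H : Finset ℤ) (hH : ∀ n ∈ H, |fv α γ n m| ≤ N)
    (hinj : ∀ n ∈ H, ∀ n' ∈ H, (fv α γ n m).natAbs = (fv α γ n' m).natAbs → n = n') :
    ∑ n ∈ H, ppw (fv α γ n m).natAbs ≤ 2 * Real.sqrt N * Real.log N := by
  refine le_trans ?_ (sum_ppw' hN1)
  rw [← sum_image (f := ppw) (g := fun n : ℤ => (fv α γ n m).natAbs)]
  · apply sum_le_sum_of_subset_of_nonneg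
    · intro l hl
      rw [mem_image] at hl
      obtain ⟨n, hn, rfl⟩ := hl
      have h1 := abs_le.1 (hH n hn)
      rw [mem_range]
      omega
    · intro l _ _
      exact ppw_nn l
  · intro a ha b hb hab
    exact hinj a ha b hb hab

lemma pp_count {α γ : ℤ} {X N Y : ℕ} (hN1 : 1 ≤ N) (hN : (α.natAbs + γ.natAbs + 1) * X ≤ N) (H : Finset ℤ)
    (hH : ∀ n ∈ H, |n| ≤ X) (hY : Y ^ 2 ≤ X) {t : ℝ}
    (hbig : ∀ n ∈ H, t ≤ ∑ m ∈ Icc 1 Y, ppw (fv α γ n m).natAbs) :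
    (H.card : ℝ) * t ≤ Y * (4 * Real.sqrt N * Real.log N) := by
  calc (H.card : ℝ) * t = ∑ _n ∈ H, t := by rw [sum_const, nsmul_eq_mul]
    _ ≤ ∑ n ∈ H, ∑ m ∈ Icc 1 Y, ppw (fv α γ n m).natAbs := sum_le_sum hbig
    _ = ∑ m ∈ Icc 1 Y, ∑ n ∈ H, ppw (fv α γ n m).natAbs := sum_comm
    _ ≤ ∑ _m ∈ Icc 1 Y, (4 * Real.sqrt N * Real.log N) := by
        refine sum_le_sum fun m hm => ?_
        rw [← sum_filter_add_sum_filter_not H (fun n => 0 ≤ fv α γ n m)]
        have k1 : ∑ n ∈ H.filter (fun n => 0 ≤ fv α γ n m), ppw (fv α γ n m).natAbs ≤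
            2 * Real.sqrt N * Real.log N := by
          apply pp_half hN1
          · intro n hn
            exact fv_abs hN (hH n (mem_filter.1 hn).1) hY hm
          · intro n hn n' hn' h
            have a1 := (mem_filter.1 hn).2
            have a2 := (mem_filter.1 hn').2
            have h2 : fv α γ n m = fv α γ n' m := by omega
            unfold fv at h2
            linarith
        have k2 : ∑ n ∈ H.filter (fun n => ¬ 0 ≤ fv α γ n m), ppw (fv α γ n m).natAbs ≤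
            2 * Real.sqrt N * Real.log N := by
          apply pp_half hN1
          · intro n hn
            exact fv_abs hN (hH n (mem_filter.1 hn).1) hY hm
          · intro n hn n' hn' h
            have a1 := (mem_filter.1 hn).2
            have a2 := (mem_filter.1 hn').2
            have h2 : fv α γ n m = fv α γ n' m := by omega
            unfold fv at h2
            linarith
        linarith
    _ = _ := by rw [sum_const, Nat.card_Icc, nsmul_eq_mul, Nat.add_sub_cancel]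

lemma cvs_count {α γ : ℤ} {N Y Tg s q z : ℕ} (a : ZMod q) (H : Finset ℤ) {R t : ℝ}
    (hH : H ⊆ cls ((α.natAbs + γ.natAbs + 1) * N) q a)
    (hms : ∀ y : ℕ, y ^ 2 ≤ N → ∑ n ∈ cls ((α.natAbs + γ.natAbs + 1) * N) q a, ‖cvs α γ (DZ z) y N n‖ ^ 2 ≤ R)
    (hY : Y ^ 2 ≤ N)
    (hbig : ∀ n ∈ H, ∃ i ∈ range (Tg + 1), t ≤ ‖cvs α γ (DZ z) (min (i * s) Y) N n‖) (ht : 0 < t) :
    (H.card : ℝ) ≤ (Tg + 1) * R / t ^ 2 := by
  rw [le_div_iff₀ (by positivity)]
  obtain ⟨V, hV⟩ : ∃ V : ℕ → ℤ → ℝ, V = fun i n => ‖cvs α γ (DZ z) (min (i * s) Y) N n‖ ^ 2 := ⟨_, rfl⟩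
  have hV0 : ∀ i n, 0 ≤ V i n := fun i n => by rw [hV]; positivity
  have h1 : ∀ n ∈ H, t ^ 2 ≤ ∑ i ∈ range (Tg + 1), V i n := by
    intro n hn
    obtain ⟨i, hi, h2⟩ := hbig n hn
    have h3 : V i n ≤ ∑ i ∈ range (Tg + 1), V i n :=
      single_le_sum (f := fun i => V i n) (fun i _ => hV0 i _) hi
    refine le_trans ?_ h3
    rw [hV]
    exact pow_le_pow_left₀ ht.le h2 2
  have h2 : ∀ i, ∑ n ∈ H, V i n ≤ R := by
    intro i
    have h3 := hms (min (i * s) Y) ((Nat.pow_le_pow_left (min_le_right _ _) 2).trans hY)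
    refine le_trans ?_ h3
    rw [hV]
    exact sum_le_sum_of_subset_of_nonneg hH fun n _ _ => sq_nonneg _
  calc (H.card : ℝ) * t ^ 2 = ∑ _n ∈ H, t ^ 2 := by rw [sum_const, nsmul_eq_mul]
    _ ≤ ∑ n ∈ H, ∑ i ∈ range (Tg + 1), V i n := sum_le_sum h1
    _ = ∑ i ∈ range (Tg + 1), ∑ n ∈ H, V i n := sum_comm
    _ ≤ ∑ _i ∈ range (Tg + 1), R := sum_le_sum fun i _ => h2 i
    _ = (Tg + 1) * R := by rw [sum_const, card_range, nsmul_eq_mul]; push_cast; ring

/-- from one length to the grid -/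
lemma grid_step {α γ n : ℤ} {X N y s z : ℕ} (hN : (α.natAbs + γ.natAbs + 1) * X ≤ N) (hn : |n| ≤ X)
    (hy : y ^ 2 ≤ X) (hs : 1 ≤ s) (hV : (Vz z)⁻¹ ≤ Real.log N) :
    |∑ m ∈ Icc 1 y, ArithmeticFunction.vonMangoldt (fv α γ n m).natAbs - Sz α γ n z * y| ≤
      |∑ m ∈ Icc 1 (y / s * s), ArithmeticFunction.vonMangoldt (fv α γ n m).natAbs -
        Sz α γ n z * (y / s * s : ℕ)| + 2 * (s * Real.log N) := by
  obtain ⟨y', hy'⟩ : ∃ y', y' = y / s * s := ⟨_, rfl⟩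
  rw [← hy']
  have h1 : y' ≤ y := by rw [hy']; exact Nat.div_mul_le_self y s
  have h2 : y ≤ y' + s := by
    rw [hy']
    have := Nat.div_add_mod y s
    have h3 := Nat.mod_lt y hs
    nlinarith
  obtain ⟨s1, s2⟩ := Sz_bd α γ n z
  obtain ⟨f, hf⟩ : ∃ f : ℕ → ℝ, f = fun m : ℕ => ArithmeticFunction.vonMangoldt (fv α γ n m).natAbs := ⟨_, rfl⟩
  have hfe : ∀ k : ℕ, ∑ m ∈ Icc 1 k, ArithmeticFunction.vonMangoldt (fv α γ n m).natAbs = ∑ m ∈ Icc 1 k, f m := by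
    intro k
    rw [hf]
  rw [hfe, hfe]
  have e1 : ∑ m ∈ Icc 1 y, f m = ∑ m ∈ Icc 1 y', f m + ∑ m ∈ Ioc y' y, f m := by
    have e3 : ∀ y : ℕ, Icc 1 y = Ioc 0 y := by
      intro y
      ext b
      simp only [mem_Icc, mem_Ioc]
      omega
    rw [e3, e3, sum_Ioc_consecutive _ (Nat.zero_le _) h1]
  have h3 : 0 ≤ ∑ m ∈ Ioc y' y, f m := by
    rw [hf]
    exact sum_nonneg fun _ _ => ArithmeticFunction.vonMangoldt_nonneg
  have hcard : ((Ioc y' y).card : ℝ) ≤ s := by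
    rw [Nat.card_Ioc]
    exact_mod_cast (by omega : y - y' ≤ s)
  have hlN : 0 ≤ Real.log N := Real.log_natCast_nonneg _
  have h4 : ∑ m ∈ Ioc y' y, f m ≤ s * Real.log N := by
    calc ∑ m ∈ Ioc y' y, f m ≤ ∑ _m ∈ Ioc y' y, Real.log N := by
          refine sum_le_sum fun m hm => ?_
          rw [hf]
          rw [mem_Ioc] at hm
          have hm' : m ∈ Icc 1 y := by rw [mem_Icc]; omega
          have k2 := abs_le.1 (fv_abs hN hn hy hm')
          rcases Nat.eq_zero_or_pos (fv α γ n m).natAbs with h0 | h0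
          · simp only [h0, ArithmeticFunction.map_zero]
            exact hlN
          · apply Pool.Agent.R460.GS.vm_le
            rw [mem_Icc]
            omega
      _ = ((Ioc y' y).card : ℝ) * Real.log N := by rw [sum_const, nsmul_eq_mul]
      _ ≤ s * Real.log N := mul_le_mul_of_nonneg_right hcard hlN
  have h5 : (y : ℝ) - y' ≤ s := by
    have : (y : ℝ) ≤ y' + s := by exact_mod_cast h2
    linarith
  have h5' : 0 ≤ (y : ℝ) - y' := by
    have : (y' : ℝ) ≤ y := by exact_mod_cast h1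
    linarith
  have h6 : Sz α γ n z * ((y : ℝ) - y') ≤ s * Real.log N := by
    calc Sz α γ n z * ((y : ℝ) - y') ≤ Real.log N * s := by
          apply mul_le_mul (s2.trans hV) h5 h5' hlN
      _ = _ := mul_comm _ _
  have h7 : 0 ≤ Sz α γ n z * ((y : ℝ) - y') := by positivity
  have e2 : ∑ m ∈ Icc 1 y, f m - Sz α γ n z * y = (∑ m ∈ Icc 1 y', f m - Sz α γ n z * y') +
      (∑ m ∈ Ioc y' y, f m - Sz α γ n z * ((y : ℝ) - y')) := by
    rw [e1]
    ring
  rw [e2]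
  refine (abs_add_le _ _).trans (add_le_add le_rfl ?_)
  rw [abs_le]
  constructor <;> linarith

open Classical in
/-- the exceptional integers in a residue class -/
noncomputable def badSq (α γ : ℤ) (C X z q : ℕ) (b : ℤ) : Finset ℤ :=
  (Icc (-(X : ℤ)) X).filter (fun n : ℤ => (n : ZMod q) = (b : ZMod q) ∧ ¬ GoodSq α γ C X z n)

lemma gcd_disc {q : ℕ} (hq1 : 1 ≤ q) (α γ b : ℤ) :
    Nat.gcd (4 * (α : ZMod q) * (b : ZMod q) + (γ : ZMod q) ^ 2).val q = Int.gcd (4 * α * b + γ ^ 2) q := by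
  have : NeZero q := ⟨by omega⟩
  have e0 : 4 * (α : ZMod q) * (b : ZMod q) + (γ : ZMod q) ^ 2 = ((4 * α * b + γ ^ 2 : ℤ) : ZMod q) := by
    push_cast
    ring
  rw [e0]
  have e2 : ((((4 * α * b + γ ^ 2 : ℤ) : ZMod q).val : ℕ) : ℤ) = (4 * α * b + γ ^ 2) % (q : ℤ) := ZMod.val_intCast _
  have e3 : (((4 * α * b + γ ^ 2 : ℤ) : ZMod q)).val = ((4 * α * b + γ ^ 2) % (q : ℤ)).toNat := by omega
  rw [e3, gcd_toNat q _ hq1]

theorem sq_main (hErr : ErrSqStm) {α γ : ℤ} (hα : α ≠ 0) (ρ : ℝ) (hρ : 0 < ρ) (A C T : ℕ) :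
    ∃ B : ℕ, ∀ E : ℕ, ∃ X₀ : ℕ, ∀ X : ℕ, X₀ ≤ X → ∀ z : ℕ, Real.log X ^ B ≤ z → (z : ℝ) ≤ Real.log X ^ E →
      ∀ q : ℕ, 1 ≤ q → (q : ℝ) ≤ (X : ℝ) ^ (1 / 2 - ρ) → (q.divisors.card : ℝ) ≤ Real.log X ^ T →
      ∀ b : ℤ, (Int.gcd (4 * α * b + γ ^ 2) q : ℝ) ≤ Real.log X ^ T →
        ((badSq α γ C X z q b).card : ℝ) ≤ (X : ℝ) / (q * Real.log X ^ A) := by
  classical
  obtain ⟨A', hA'⟩ : ∃ A', A' = A + 3 * C + 8 := ⟨_, rfl⟩
  obtain ⟨B₁, hB₁⟩ := hErr α γ hα A' T ρ hρ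
  obtain ⟨B₂, hB₂⟩ := hErr (-α) (-γ) (neg_ne_zero.2 hα) A' T ρ hρ
  obtain ⟨B', hB'⟩ : ∃ B', B' = max B₁ B₂ := ⟨_, rfl⟩
  refine ⟨B' + 1, fun E => ?_⟩
  obtain ⟨N₁, h1⟩ := hB₁ E
  obtain ⟨N₂, h1'⟩ := hB₂ E
  obtain ⟨X₁, h2⟩ := near_abs (γ := γ) hα (C + 1) E
  obtain ⟨X₂, h3⟩ := Filter.eventually_atTop.1 (ev_log (A + C + 3) (s := min ρ (1 / 2)) (by positivity)
    (2 ^ B' + 100 + 32 * (kap α γ + 1) ^ 2))
  obtain ⟨X₃, h4⟩ := Filter.eventually_atTop.1 (ev_log (C + 4) (s := 1 / 2) (by norm_num) 1)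
  obtain ⟨X₄, h5⟩ := Vz_inv_small E
  refine ⟨N₁ + N₂ + X₁ + X₂ + X₃ + X₄ + 3, fun X hX z hz1 hz2 q hq1 hqX hτ b hb => ?_⟩
  have hX1 : 1 ≤ X := by omega
  have hX0 : (0 : ℝ) < X := by exact_mod_cast hX1
  have hX1r : (1 : ℝ) ≤ X := by exact_mod_cast hX1
  obtain ⟨hLb, hLp⟩ := h3 X (by omega)
  obtain ⟨-, hLp2⟩ := h4 X (by omega)
  have c2 := h2 X (by omega)
  replace h5 := h5 X (by omega)
  obtain ⟨N, hN⟩ : ∃ N, N = (α.natAbs + γ.natAbs + 1) * X := ⟨_, rfl⟩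
  have hXN : X ≤ N := by
    rw [hN]
    nlinarith [Nat.zero_le (α.natAbs * X), Nat.zero_le (γ.natAbs * X)]
  obtain ⟨g, hg⟩ : ∃ g, g = kap α γ + 1 := ⟨_, rfl⟩
  have hg1 : 1 ≤ g := by
    rw [hg]
    linarith [(kap_ge hα γ).2.2]
  have hNr : (N : ℝ) = g * X := by
    rw [hN, hg, ← kap_nat]
    push_cast
    ring
  have c1 := h1 N (by omega)
  have c1' := h1' N (by omega)
  have hN0 : (0 : ℝ) < N := by rw [hNr]; positivity
  have hL2 : Real.log X ≤ Real.log N := Real.log_le_log hX0 (by exact_mod_cast hXN)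
  rw [← hg] at hLb
  have h2B : (1 : ℝ) ≤ 2 ^ B' := one_le_pow₀ (by norm_num)
  have hg2 : 0 ≤ g ^ 2 := sq_nonneg g
  have hgg : g ≤ g ^ 2 := by nlinarith
  have hL3 : Real.log N ≤ 2 * Real.log X := by
    rw [hNr, Real.log_mul (by positivity) hX0.ne']
    have h6 : Real.log g ≤ g := (Real.log_le_sub_one_of_pos (by linarith)).trans (by linarith)
    linarith
  obtain ⟨L, hLd⟩ : ∃ L, L = Real.log (X : ℝ) := ⟨_, rfl⟩
  obtain ⟨L', hLd'⟩ : ∃ L', L' = Real.log (N : ℝ) := ⟨_, rfl⟩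
  rw [← hLd] at hLb hLp hLp2 c2 hb hL2 hL3 hz1 hz2 hτ h5 ⊢
  rw [← hLd'] at c1 c1' hL2 hL3
  have hL100 : 100 ≤ L := by linarith
  have hg32 : 32 * g ^ 2 ≤ L := by linarith
  have hL0 : 0 < L := by linarith
  have hL1 : 1 ≤ L := by linarith
  have hL0' : 0 < L' := by linarith
  have hL1' : 1 ≤ L' := by linarith
  have hq0 : (0 : ℝ) < q := by exact_mod_cast hq1
  have : NeZero q := ⟨by omega⟩
  have hzB : L' ^ B' ≤ z := by
    calc L' ^ B' ≤ (2 * L) ^ B' := pow_le_pow_left₀ hL0'.le hL3 _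
      _ = 2 ^ B' * L ^ B' := mul_pow _ _ _
      _ ≤ L * L ^ B' := mul_le_mul_of_nonneg_right (by linarith) (by positivity)
      _ = L ^ (B' + 1) := by ring
      _ ≤ z := hz1
  have hz2' : 2 ≤ z := by
    have h6 : L ^ 1 ≤ L ^ (B' + 1) := pow_le_pow_right₀ hL1 (by omega)
    have : (2 : ℝ) ≤ z := by linarith
    exact_mod_cast this
  obtain ⟨hV, hms⟩ := c1 z ((pow_le_pow_right₀ hL1' (by rw [hB']; exact le_max_left _ _)).trans hzB)
    (hz2.trans (pow_le_pow_left₀ hL0.le hL2 _))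
  obtain ⟨-, hmsn⟩ := c1' z ((pow_le_pow_right₀ hL1' (by rw [hB']; exact le_max_right _ _)).trans hzB)
    (hz2.trans (pow_le_pow_left₀ hL0.le hL2 _))
  rw [Int.natAbs_neg, Int.natAbs_neg] at hmsn
  obtain ⟨M, hM⟩ : ∃ M, M = Real.sqrt X := ⟨_, rfl⟩
  have hM0 : 0 < M := by rw [hM]; exact Real.sqrt_pos.2 hX0
  have hMM : M * M = X := by rw [hM]; exact Real.mul_self_sqrt hX0.le
  have hMr : M = (X : ℝ) ^ (1 / 2 : ℝ) := by rw [hM, Real.sqrt_eq_rpow]
  have hML : L ^ (C + 4) ≤ M := by rw [hMr]; exact hLp2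
  have hqM : (q : ℝ) * L ^ (A + C + 3) ≤ M := by
    calc (q : ℝ) * L ^ (A + C + 3) ≤ (X : ℝ) ^ (1 / 2 - ρ) * (X : ℝ) ^ ρ := by
          apply mul_le_mul hqX _ (by positivity) (by positivity)
          exact hLp.trans (Real.rpow_le_rpow_of_exponent_le hX1r (min_le_left _ _))
      _ = M := by
          rw [← Real.rpow_add hX0, hMr]
          congr 1
          ring
  have hVX : (Vz z)⁻¹ ≤ L := h5 z (by omega) hz2
  obtain ⟨Y, hY⟩ : ∃ Y, Y = Nat.sqrt X := ⟨_, rfl⟩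
  have hY2 : Y ^ 2 ≤ X := by rw [hY]; exact Nat.sqrt_le' X
  have hYy : ∀ y : ℕ, y ^ 2 ≤ X → y ≤ Y := by
    intro y hy
    rw [hY]
    exact Nat.le_sqrt'.2 hy
  have hYM : (Y : ℝ) ≤ M := by
    rw [hM]
    apply Real.le_sqrt_of_sq_le
    exact_mod_cast hY2
  -- the two sets
  obtain ⟨t, ht⟩ : ∃ t : ℝ, t = M / (4 * L ^ C) := ⟨_, rfl⟩
  have ht0 : 0 < t := by rw [ht]; positivity
  obtain ⟨H, hH⟩ : ∃ H, H = badSq α γ C X z q b := ⟨_, rfl⟩
  rw [← hH]
  obtain ⟨PP, hPP⟩ : ∃ PP : ℤ → ℝ, PP = fun n => ∑ m ∈ Icc 1 Y, ppw (fv α γ n m).natAbs := ⟨_, rfl⟩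
  have hmem : ∀ n ∈ H, |n| ≤ X ∧ (n : ZMod q) = (b : ZMod q) ∧ ¬ GoodSq α γ C X z n := by
    intro n hn
    rw [hH] at hn
    unfold badSq at hn
    rw [mem_filter, mem_Icc] at hn
    exact ⟨abs_le.2 hn.1, hn.2.1, hn.2.2⟩
  have hsplit : (H.card : ℝ) = ((H.filter (fun n => t ≤ PP n)).card : ℝ) +
      ((H.filter (fun n => ¬ t ≤ PP n)).card : ℝ) := by
    exact_mod_cast (card_filter_add_card_filter_not (s := H) (fun n => t ≤ PP n)).symm
  -- the prime powers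
  have hH1 : ((H.filter (fun n => t ≤ PP n)).card : ℝ) ≤ (X : ℝ) / (q * L ^ A) / 2 := by
    have k1 := pp_count (α := α) (γ := γ) (X := X) (N := N) (Y := Y) (hX1.trans hXN) (by rw [hN])
      (H.filter (fun n => t ≤ PP n)) (fun n hn => (hmem n (mem_filter.1 hn).1).1) hY2 (t := t)
      (fun n hn => by
        have := (mem_filter.1 hn).2
        rw [hPP] at this
        exact this)
    rw [← hLd'] at k1
    have hsN : Real.sqrt N ≤ g * M := by
      rw [hNr, Real.sqrt_mul (by linarith), ← hM]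
      have : Real.sqrt g ≤ g := by
        rw [Real.sqrt_le_left (by linarith)]
        exact hgg
      gcongr
    have k2 : ((H.filter (fun n => t ≤ PP n)).card : ℝ) * t ≤ M * (4 * (g * M) * (2 * L)) := by
      refine k1.trans ?_
      gcongr
    have k3 : ((H.filter (fun n => t ≤ PP n)).card : ℝ) ≤ M * (4 * (g * M) * (2 * L)) / t := by
      rw [le_div_iff₀ ht0]
      exact k2
    refine k3.trans ?_
    have e1 : M * (4 * (g * M) * (2 * L)) / t = 32 * g * M * L ^ (C + 1) := by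
      rw [ht]
      field_simp
      ring
    rw [e1, div_div, le_div_iff₀ (by positivity)]
    calc 32 * g * M * L ^ (C + 1) * (q * L ^ A * 2) = (64 * g) * M * (q * L ^ (A + C + 1)) := by ring
      _ ≤ L ^ 2 * M * (q * L ^ (A + C + 1)) := by
          have : 64 * g ≤ L ^ 2 := by nlinarith
          gcongr
      _ = M * (q * L ^ (A + C + 3)) := by ring
      _ ≤ M * M := by gcongr
      _ = X := hMM
  -- the correlations
  obtain ⟨Tg, hTg⟩ : ∃ Tg, Tg = ⌈L ^ (C + 3)⌉₊ := ⟨_, rfl⟩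
  have hT1 : L ^ (C + 3) ≤ Tg := by rw [hTg]; exact Nat.le_ceil _
  have hLV : 1 ≤ L ^ (C + 3) := one_le_pow₀ hL1
  have hTg0 : 0 < Tg := by
    have : (0 : ℝ) < Tg := by linarith
    exact_mod_cast this
  have hT2 : (Tg : ℝ) + 1 ≤ L ^ (C + 4) := by
    have h4 : (Tg : ℝ) < L ^ (C + 3) + 1 := by
      rw [hTg]
      exact Nat.ceil_lt_add_one (by positivity)
    calc (Tg : ℝ) + 1 ≤ 3 * L ^ (C + 3) := by linarith
      _ ≤ L * L ^ (C + 3) := mul_le_mul_of_nonneg_right (by linarith) (by positivity)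
      _ = L ^ (C + 4) := by ring
  obtain ⟨s, hs⟩ : ∃ s, s = Y / Tg + 1 := ⟨_, rfl⟩
  have hs1 : 1 ≤ s := by rw [hs]; exact Nat.le_add_left 1 _
  have hsr : (s : ℝ) ≤ 2 * M / L ^ (C + 3) := by
    have a1 : ((Y / Tg : ℕ) : ℝ) ≤ (Y : ℝ) / Tg := Nat.cast_div_le
    have a2 : (Y : ℝ) / Tg ≤ M / L ^ (C + 3) := by gcongr
    have a3 : 1 ≤ M / L ^ (C + 3) := by
      rw [one_le_div (by positivity)]
      refine le_trans ?_ hML
      exact pow_le_pow_right₀ hL1 (by omega)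
    have a4 : 2 * M / L ^ (C + 3) = M / L ^ (C + 3) + M / L ^ (C + 3) := by ring
    rw [hs, a4]
    push_cast
    linarith
  obtain ⟨H₂, hH₂⟩ : ∃ H₂, H₂ = H.filter (fun n => ¬ t ≤ PP n) := ⟨_, rfl⟩
  obtain ⟨P1, hP1⟩ : ∃ P1 : ℤ → Prop, P1 = fun n => ∃ i ∈ range (Tg + 1),
    t / 2 ≤ ‖cvs α γ (DZ z) (min (i * s) Y) N n‖ := ⟨_, rfl⟩
  obtain ⟨P2, hP2⟩ : ∃ P2 : ℤ → Prop, P2 = fun n => ∃ i ∈ range (Tg + 1),
    t / 2 ≤ ‖cvs (-α) (-γ) (DZ z) (min (i * s) Y) N (-n)‖ := ⟨_, rfl⟩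
  have hcov : H₂ ⊆ H₂.filter P1 ∪ H₂.filter P2 := by
    intro n hn
    have hn' := hn
    rw [hH₂, mem_filter] at hn
    obtain ⟨m1, m2, m3⟩ := hmem n hn.1
    have m4 := hn.2
    rw [not_le, hPP] at m4
    simp only at m4
    unfold GoodSq at m3
    push Not at m3
    obtain ⟨y, hy, hlt⟩ := m3
    rw [← hM, ← hLd] at hlt
    have hyY := hYy y hy
    have d1 : y / s * s ≤ y := Nat.div_mul_le_self y s
    have d0 : y / s ∈ range (Tg + 1) := by
      rw [mem_range]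
      have d2 : Y < Tg * s := by
        rw [hs]
        exact Nat.lt_mul_div_succ Y hTg0
      have d3 : y / s < Tg := by
        rw [Nat.div_lt_iff_lt_mul hs1]
        omega
      omega
    -- the prime powers
    have p1 : ∑ m ∈ Icc 1 y, ppw (fv α γ n m).natAbs ≤ t := by
      refine le_trans ?_ m4.le
      apply sum_le_sum_of_subset_of_nonneg (Icc_subset_Icc le_rfl hyY)
      intro m _ _
      exact ppw_nn _
    have p1' : 0 ≤ ∑ m ∈ Icc 1 y, ppw (fv α γ n m).natAbs := sum_nonneg fun _ _ => ppw_nn _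
    have p2 : ∑ m ∈ Icc 1 y, ArithmeticFunction.vonMangoldt (fv α γ n m).natAbs =
        ∑ m ∈ Icc 1 y, thp (fv α γ n m).natAbs + ∑ m ∈ Icc 1 y, ppw (fv α γ n m).natAbs := by
      rw [← sum_add_distrib]
      exact sum_congr rfl fun m _ => vm_split _
    have g1 := grid_step (α := α) (γ := γ) (n := n) (X := X) (N := N) (y := y) (s := s) (z := z) (by rw [hN]) m1 hy hs1
      (by rw [← hLd']; exact hV)
    have g2 := c2 z hz2' hz2 hVX n (y / s * s) N ((Nat.pow_le_pow_left d1 2).trans hy) (by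
      intro m hm
      have hm' : m ∈ Icc 1 y := Icc_subset_Icc le_rfl d1 hm
      exact fv_abs (by rw [hN]) m1 hy hm')
    rw [← hLd'] at g1
    rw [← hM] at g2
    have g3 : 2 * ((s : ℝ) * L') ≤ M / L ^ C * (8 / L ^ 2) := by
      calc 2 * ((s : ℝ) * L') ≤ 2 * ((2 * M / L ^ (C + 3)) * (2 * L)) := by gcongr
        _ = M / L ^ C * (8 / L ^ 2) := by
            rw [pow_add L C 3]
            field_simp
            ring
    have g4 : M / L ^ (C + 1) = M / L ^ C * (1 / L) := by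
      rw [pow_succ]
      field_simp
    have g5 : 8 / L ^ 2 + 1 / L ≤ 1 / 2 := by
      have a1 : 8 / L ^ 2 ≤ 1 / 4 := by
        rw [div_le_div_iff₀ (by positivity) (by norm_num)]
        nlinarith
      have a2 : 1 / L ≤ 1 / 4 := by
        rw [div_le_div_iff₀ hL0 (by norm_num)]
        linarith
      linarith
    have g6 : t = M / L ^ C * (1 / 4) := by rw [ht]; field_simp
    have g7 : 0 < M / L ^ C := by positivity
    have g8 := mul_le_mul_of_nonneg_left g5 g7.le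
    rw [g4] at g2
    have g9 : |∑ m ∈ Icc 1 y, thp (fv α γ n m).natAbs - Sz α γ n z * y| ≤
        |∑ m ∈ Icc 1 y, ArithmeticFunction.vonMangoldt (fv α γ n m).natAbs - Sz α γ n z * y| + t := by
      rw [p2]
      have e : ∑ m ∈ Icc 1 y, thp (fv α γ n m).natAbs - Sz α γ n z * y =
          (∑ m ∈ Icc 1 y, thp (fv α γ n m).natAbs +
            ∑ m ∈ Icc 1 y, ppw (fv α γ n m).natAbs - Sz α γ n z * y) -
          ∑ m ∈ Icc 1 y, ppw (fv α γ n m).natAbs := by ring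
      rw [e]
      refine (abs_sub _ _).trans (add_le_add le_rfl ?_)
      rw [abs_of_nonneg p1']
      exact p1
    rw [mul_add] at g8
    have g10 : t ≤ ‖cvs α γ (DZ z) (y / s * s) N n‖ + ‖cvs (-α) (-γ) (DZ z) (y / s * s) N (-n)‖ := by
      linarith
    rw [mem_union, mem_filter, mem_filter]
    rcases le_or_gt (t / 2) ‖cvs α γ (DZ z) (y / s * s) N n‖ with g11 | g11
    · left
      refine ⟨hn', ?_⟩
      rw [hP1]
      exact ⟨y / s, d0, by rw [min_eq_left (d1.trans hyY)]; exact g11⟩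
    · right
      refine ⟨hn', ?_⟩
      rw [hP2]
      refine ⟨y / s, d0, ?_⟩
      rw [min_eq_left (d1.trans hyY)]
      linarith
  have hqN : (q : ℝ) ≤ (N : ℝ) ^ (1 / 2 - ρ) := by
    rcases le_or_gt 0 (1 / 2 - ρ) with h6 | h6
    · exact hqX.trans (Real.rpow_le_rpow hX0.le (by exact_mod_cast hXN) h6)
    · exfalso
      have h7 : (X : ℝ) ^ (1 / 2 - ρ) < 1 := Real.rpow_lt_one_of_one_lt_of_neg (by
        have : 3 ≤ X := by omega
        exact_mod_cast (by omega : 1 < X)) h6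
      have h8 : (1 : ℝ) ≤ q := by exact_mod_cast hq1
      linarith
  obtain ⟨R, hR⟩ : ∃ R, R = (N : ℝ) ^ 2 / (q * L' ^ A') := ⟨_, rfl⟩
  have hτ' := hτ.trans (pow_le_pow_left₀ hL0.le hL2 T)
  have hms1 : ∀ y : ℕ, y ^ 2 ≤ N → ∑ n ∈ cls ((α.natAbs + γ.natAbs + 1) * N) q (b : ZMod q),
      ‖cvs α γ (DZ z) y N n‖ ^ 2 ≤ R := by
    intro y hy
    rw [hR]
    apply hms q hqN hτ' (b : ZMod q) _ y hy
    rw [gcd_disc hq1]
    exact hb.trans (pow_le_pow_left₀ hL0.le hL2 _)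
  have hms2 : ∀ y : ℕ, y ^ 2 ≤ N → ∑ n ∈ cls ((α.natAbs + γ.natAbs + 1) * N) q ((-b : ℤ) : ZMod q),
      ‖cvs (-α) (-γ) (DZ z) y N n‖ ^ 2 ≤ R := by
    intro y hy
    rw [hR]
    apply hmsn q hqN hτ' ((-b : ℤ) : ZMod q) _ y hy
    rw [gcd_disc hq1]
    have e : 4 * (-α) * (-b) + (-γ) ^ 2 = 4 * α * b + γ ^ 2 := by ring
    rw [e]
    exact hb.trans (pow_le_pow_left₀ hL0.le hL2 _)
  have hXcls : ∀ n : ℤ, |n| ≤ X → n ∈ Icc (-(((α.natAbs + γ.natAbs + 1) * N : ℕ) : ℤ)) ((α.natAbs + γ.natAbs + 1) * N : ℕ) := by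
    intro n hn
    have k3 := abs_le.1 hn
    have k4 : (X : ℤ) ≤ (((α.natAbs + γ.natAbs + 1) * N : ℕ) : ℤ) := by
      have : X ≤ (α.natAbs + γ.natAbs + 1) * N := hXN.trans (Nat.le_mul_of_pos_left N (Nat.succ_pos _))
      exact_mod_cast this
    rw [mem_Icc]
    exact ⟨by linarith [k3.1], by linarith [k3.2]⟩
  have hR0 : 0 ≤ R := by rw [hR]; positivity
  have hbound : ((Tg : ℝ) + 1) * R / (t / 2) ^ 2 ≤ (X : ℝ) / (q * L ^ A) / 4 := by
    have e1 : R ≤ g ^ 2 * X ^ 2 / (q * L ^ A') := by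
      rw [hR, hNr, mul_pow]
      apply div_le_div_of_nonneg_left (by positivity) (by positivity)
      apply mul_le_mul_of_nonneg_left _ (by positivity)
      exact pow_le_pow_left₀ hL0.le hL2 _
    calc ((Tg : ℝ) + 1) * R / (t / 2) ^ 2 ≤ L ^ (C + 4) * (g ^ 2 * X ^ 2 / (q * L ^ A')) / (t / 2) ^ 2 := by gcongr
      _ = 64 * g ^ 2 * (X / (q * L ^ A)) / L ^ 4 := by
          have e2 : L ^ A' = L ^ A * L ^ (2 * C) * L ^ (C + 4) * L ^ 4 := by
            rw [hA', ← pow_add, ← pow_add, ← pow_add]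
            congr 1
            omega
          have e3 : (t / 2) ^ 2 = X / (64 * L ^ (2 * C)) := by
            rw [ht, div_pow, div_pow, mul_pow, ← pow_mul, mul_comm C 2, sq M, hMM]
            rw [div_div]
            congr 1
            ring
          rw [e2, e3]
          field_simp
      _ ≤ X / (q * L ^ A) / 4 := by
          have e4 : 64 * g ^ 2 * (X / (q * L ^ A)) / L ^ 4 = X / (q * L ^ A) * (64 * g ^ 2 / L ^ 4) := by ring
          have e5 : X / (q * L ^ A) / 4 = X / (q * L ^ A) * (1 / 4) := by ring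
          rw [e4, e5]
          apply mul_le_mul_of_nonneg_left _ (by positivity)
          rw [div_le_div_iff₀ (by positivity) (by norm_num)]
          have : L ^ 2 ≤ L ^ 4 := pow_le_pow_right₀ hL1 (by norm_num)
          nlinarith
  have hk1 : ((H₂.filter P1).card : ℝ) ≤ (X : ℝ) / (q * L ^ A) / 4 := by
    refine le_trans ?_ hbound
    apply cvs_count (α := α) (γ := γ) (N := N) (Y := Y) (Tg := Tg) (s := s) (z := z) (b : ZMod q)
      (H₂.filter P1) (R := R) (t := t / 2) _ hms1 (hY2.trans hXN) _ (by positivity)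
    · intro n hn
      rw [mem_filter, hH₂, mem_filter] at hn
      obtain ⟨k1, k2, -⟩ := hmem n hn.1.1
      unfold cls
      rw [mem_filter]
      exact ⟨hXcls n k1, k2⟩
    · intro n hn
      have := (mem_filter.1 hn).2
      rw [hP1] at this
      exact this
  have hk2 : ((H₂.filter P2).card : ℝ) ≤ (X : ℝ) / (q * L ^ A) / 4 := by
    refine le_trans ?_ hbound
    have e : (H₂.filter P2).card = ((H₂.filter P2).image (fun n : ℤ => -n)).card :=
      (card_image_of_injective _ neg_injective).symm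
    rw [e]
    apply cvs_count (α := -α) (γ := -γ) (N := N) (Y := Y) (Tg := Tg) (s := s) (z := z) ((-b : ℤ) : ZMod q)
      ((H₂.filter P2).image (fun n : ℤ => -n)) (R := R) (t := t / 2) _ _ (hY2.trans hXN) _ (by positivity)
    · intro n hn
      rw [mem_image] at hn
      obtain ⟨n', hn', rfl⟩ := hn
      rw [mem_filter, hH₂, mem_filter] at hn'
      obtain ⟨k1, k2, -⟩ := hmem n' hn'.1.1
      unfold cls
      rw [mem_filter, Int.natAbs_neg, Int.natAbs_neg]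
      refine ⟨hXcls _ (by rw [abs_neg]; exact k1), ?_⟩
      push_cast
      rw [k2]
    · rw [Int.natAbs_neg, Int.natAbs_neg]
      exact hms2
    · intro n hn
      rw [mem_image] at hn
      obtain ⟨n', hn', rfl⟩ := hn
      have := (mem_filter.1 hn').2
      rw [hP2] at this
      exact this
  have hH2 : (H₂.card : ℝ) ≤ (X : ℝ) / (q * L ^ A) / 2 := by
    calc (H₂.card : ℝ) ≤ ((H₂.filter P1 ∪ H₂.filter P2).card : ℝ) := by exact_mod_cast card_le_card hcov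
      _ ≤ ((H₂.filter P1).card : ℝ) + ((H₂.filter P2).card : ℝ) := by exact_mod_cast card_union_le _ _
      _ ≤ _ := by linarith
  rw [hsplit, ← hH₂]
  linarith

end Pool.Agent.R460.SB
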