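import Pool.Agent.R460.SB.Min
import Pool.Agent.R460.SQ.Maj
import Pool.Agent.R460.GP.Core

set_option autoImplicit false

/-! The pointwise estimate on the major arcs. -/

namespace Pool.Agent.R460.SB

open Finset
open Pool.Agent.Y883.GJ
open Pool.Agent.R460.GS
open Pool.Agent.R460.SQ (good_mean)
open Pool.Agent.R460.GP (conj_inv_char)
open Pool.Agent.H807R2.Dav (ee norm_ee)
open Pool.Agent.Y614.GJ.Core (q_le_phi)
open Pool.Agent.Y697.GJ (conj_ee)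

/-- the good characters -/
lemma part_good {q N y : ℕ} [NeZero q] {α γ : ℤ} (hα : α ≠ 0) (g : ZMod q → ℂ) (a : ZMod q) (η : ℝ) :
    ‖∑ m ∈ Icc 1 y, ee (((α : ℝ) * (m : ℝ) ^ 2 + (γ : ℝ) * (m : ℝ)) * η) * g (a - ((α : ZMod q) * (m : ZMod q) ^ 2 + (γ : ZMod q) * (m : ZMod q)))‖ ^ 2 ≤
      ((y : ℝ) / q + 1) ^ 2 * ((2 * |(α : ℝ)| * (q.divisors.card * q)) * ∑ l, ‖g l‖ ^ 2) := by
  have h1 : ‖∑ m ∈ Icc 1 y, ee (((α : ℝ) * (m : ℝ) ^ 2 + (γ : ℝ) * (m : ℝ)) * η) * g (a - ((α : ZMod q) * (m : ZMod q) ^ 2 + (γ : ZMod q) * (m : ZMod q)))‖ ≤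
      ((y : ℝ) / q + 1) * ∑ l : ZMod q, (rt α (γ : ZMod q) l : ℝ) * ‖g (a - l)‖ := by
    calc ‖∑ m ∈ Icc 1 y, ee (((α : ℝ) * (m : ℝ) ^ 2 + (γ : ℝ) * (m : ℝ)) * η) * g (a - ((α : ZMod q) * (m : ZMod q) ^ 2 + (γ : ZMod q) * (m : ZMod q)))‖
        ≤ ∑ m ∈ Icc 1 y, ‖g (a - ((α : ZMod q) * (m : ZMod q) ^ 2 + (γ : ZMod q) * (m : ZMod q)))‖ := by
          refine (norm_sum_le _ _).trans (le_of_eq (sum_congr rfl fun m _ => ?_))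
          rw [norm_mul, norm_ee, one_mul]
      _ = ∑ k : ZMod q, ∑ m ∈ (Icc 1 y).filter (fun m : ℕ => (m : ZMod q) = k),
          ‖g (a - ((α : ZMod q) * (m : ZMod q) ^ 2 + (γ : ZMod q) * (m : ZMod q)))‖ := (Finset.sum_fiberwise _ _ _).symm
      _ ≤ ∑ k : ZMod q, ((y : ℝ) / q + 1) * ‖g (a - ((α : ZMod q) * k ^ 2 + (γ : ZMod q) * k))‖ := by
          refine sum_le_sum fun k _ => ?_
          rw [sum_congr rfl fun m hm => by rw [(mem_filter.1 hm).2], sum_const, nsmul_eq_mul]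
          exact mul_le_mul_of_nonneg_right (Pool.Agent.Y812.GJ.card_class q y k) (norm_nonneg _)
      _ = ((y : ℝ) / q + 1) * ∑ l : ZMod q, (rt α (γ : ZMod q) l : ℝ) * ‖g (a - l)‖ := by
          rw [← mul_sum, sum_rt α (γ : ZMod q) (fun l => ‖g (a - l)‖)]
          simp only [nsmul_eq_mul]
  have h2 : (∑ l : ZMod q, (rt α (γ : ZMod q) l : ℝ) * ‖g (a - l)‖) ^ 2 ≤
      (2 * |(α : ℝ)| * (q.divisors.card * q)) * ∑ l, ‖g l‖ ^ 2 := by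
    refine (sum_mul_sq_le_sq_mul_sq _ _ _).trans ?_
    have e1 : ∑ l : ZMod q, ‖g (a - l)‖ ^ 2 = ∑ l, ‖g l‖ ^ 2 :=
      Fintype.sum_equiv (Equiv.subLeft a) _ _ fun l => rfl
    rw [e1]
    apply mul_le_mul_of_nonneg_right _ (sum_nonneg fun _ _ => sq_nonneg _)
    have h4 := sum_rt_sq (q := q) hα (γ : ZMod q)
    have h5 : ((∑ l : ZMod q, rt α (γ : ZMod q) l ^ 2 : ℕ) : ℝ) ≤ ((2 * α.natAbs * (q.divisors.card * q) : ℕ) : ℝ) := by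
      exact_mod_cast h4
    push_cast at h5
    rw [Nat.cast_natAbs, Int.cast_abs] at h5
    exact h5
  have h3 : 0 ≤ ∑ l : ZMod q, (rt α (γ : ZMod q) l : ℝ) * ‖g (a - l)‖ := sum_nonneg fun _ _ => by positivity
  calc _ ≤ (((y : ℝ) / q + 1) * ∑ l : ZMod q, (rt α (γ : ZMod q) l : ℝ) * ‖g (a - l)‖) ^ 2 :=
        pow_le_pow_left₀ (norm_nonneg _) h1 2
    _ = ((y : ℝ) / q + 1) ^ 2 * (∑ l : ZMod q, (rt α (γ : ZMod q) l : ℝ) * ‖g (a - l)‖) ^ 2 := by rw [mul_pow]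
    _ ≤ _ := mul_le_mul_of_nonneg_left h2 (by positivity)

/-- the bad characters -/
lemma part_bad {q N y : ℕ} [NeZero q] {α γ : ℤ} (G : ℕ → ℂ) (a : ZMod q) (η : ℝ)
    (BF : Finset (DirichletCharacter ℂ q)) {X Y Z : ℝ} (hX : (BF.card : ℝ) ≤ X)
    (hY : ∀ χ ∈ BF, ‖cs q N G η χ‖ ≤ Y) (hY0 : 0 ≤ Y)
    (hZ : ∀ χ ∈ BF, ‖∑ m ∈ Icc 1 y, ee (((α : ℝ) * (m : ℝ) ^ 2 + (γ : ℝ) * (m : ℝ)) * (-η)) *
      χ (a - ((α : ZMod q) * (m : ZMod q) ^ 2 + (γ : ZMod q) * (m : ZMod q)))‖ ≤ Z) (hZ0 : 0 ≤ Z) :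
    ‖∑ m ∈ Icc 1 y, ee (((α : ℝ) * (m : ℝ) ^ 2 + (γ : ℝ) * (m : ℝ)) * η) * clB q N G η BF (a - ((α : ZMod q) * (m : ZMod q) ^ 2 + (γ : ZMod q) * (m : ZMod q)))‖ ≤
      (q.totient : ℝ)⁻¹ * (X * (Y * Z)) := by
  have e1 : ∑ m ∈ Icc 1 y, ee (((α : ℝ) * (m : ℝ) ^ 2 + (γ : ℝ) * (m : ℝ)) * η) * clB q N G η BF (a - ((α : ZMod q) * (m : ZMod q) ^ 2 + (γ : ZMod q) * (m : ZMod q))) =
      (q.totient : ℂ)⁻¹ * ∑ χ ∈ BF, cs q N G η χ * ∑ m ∈ Icc 1 y, ee (((α : ℝ) * (m : ℝ) ^ 2 + (γ : ℝ) * (m : ℝ)) * η) *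
        χ⁻¹ (a - ((α : ZMod q) * (m : ZMod q) ^ 2 + (γ : ZMod q) * (m : ZMod q))) := by
    unfold clB
    rw [mul_sum]
    simp only [mul_sum]
    rw [sum_comm]
    refine sum_congr rfl fun χ _ => sum_congr rfl fun m _ => ?_
    ring
  have e2 : ∀ χ : DirichletCharacter ℂ q, ‖∑ m ∈ Icc 1 y, ee (((α : ℝ) * (m : ℝ) ^ 2 + (γ : ℝ) * (m : ℝ)) * η) *
        χ⁻¹ (a - ((α : ZMod q) * (m : ZMod q) ^ 2 + (γ : ZMod q) * (m : ZMod q)))‖ =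
      ‖∑ m ∈ Icc 1 y, ee (((α : ℝ) * (m : ℝ) ^ 2 + (γ : ℝ) * (m : ℝ)) * (-η)) * χ (a - ((α : ZMod q) * (m : ZMod q) ^ 2 + (γ : ZMod q) * (m : ZMod q)))‖ := by
    intro χ
    rw [← RCLike.norm_conj (∑ m ∈ Icc 1 y, ee (((α : ℝ) * (m : ℝ) ^ 2 + (γ : ℝ) * (m : ℝ)) * η) *
        χ⁻¹ (a - ((α : ZMod q) * (m : ZMod q) ^ 2 + (γ : ZMod q) * (m : ZMod q)))), map_sum]
    congr 1
    refine sum_congr rfl fun m _ => ?_
    rw [map_mul, conj_inv_char, conj_ee, mul_neg]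
  rw [e1, norm_mul, norm_inv, Complex.norm_natCast]
  apply mul_le_mul_of_nonneg_left _ (by positivity)
  calc ‖∑ χ ∈ BF, cs q N G η χ * ∑ m ∈ Icc 1 y, ee (((α : ℝ) * (m : ℝ) ^ 2 + (γ : ℝ) * (m : ℝ)) * η) *
        χ⁻¹ (a - ((α : ZMod q) * (m : ZMod q) ^ 2 + (γ : ZMod q) * (m : ZMod q)))‖ ≤ ∑ _χ ∈ BF, Y * Z := by
        refine (norm_sum_le _ _).trans (sum_le_sum fun χ hχ => ?_)
        rw [norm_mul, e2]
        exact mul_le_mul (hY χ hχ) (hZ χ hχ) (norm_nonneg _) hY0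
    _ = BF.card * (Y * Z) := by rw [sum_const, nsmul_eq_mul]
    _ ≤ X * (Y * Z) := by gcongr

/-- the pointwise estimate on the major arcs -/
lemma pw_sq (h3 : OrthStm) {q N : ℕ} [NeZero q] {α γ : ℤ} (hα : α ≠ 0) (G : ℕ → ℂ) {A T C₃ K B₂ U : ℕ} {L η : ℝ}
    {a : ZMod q} (hL : L = Real.log N) (hL200 : 200 ≤ L) (hLα : 8 * |(α : ℝ)| ≤ L) (hN : 1 ≤ N)
    (hqN : (q : ℝ) ≤ Real.sqrt N) (hτ : (q.divisors.card : ℝ) ≤ L ^ T)
    (hG : ∀ n ∈ Icc 1 N, ‖G n‖ ≤ L ^ 2)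
    (B : Finset (DirichletCharacter ℂ q)) (hBc : (B.card : ℝ) ≤ L ^ C₃)
    (hgood : ∀ S : Finset (DirichletCharacter ℂ q), Disjoint S B →
      ∑ χ ∈ S, ‖cs q N G η χ‖ ^ 2 ≤ (N : ℝ) ^ 2 / L ^ (A + T + 2 + 4))
    (hnon : ∑ l ∈ univ.filter (fun l : ZMod q => ¬ IsUnit l), ‖cl q N G η l‖ ^ 2 ≤
      (N : ℝ) ^ 2 / (q * L ^ (A + T + 2 + 2)))
    (hsm : ∀ χ : DirichletCharacter ℂ q, (χ.conductor : ℝ) ≤ L ^ K → ‖cs q N G η χ‖ ≤ N / L ^ U)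
    (hU : C₃ + (A + T + 2) + 4 ≤ 2 * U) {y : ℕ} (hy : y ^ 2 ≤ N)
    (hsh : ∀ χ : DirichletCharacter ℂ q, L ^ K < χ.conductor →
      ‖∑ m ∈ Icc 1 y, ee (((α : ℝ) * (m : ℝ) ^ 2 + (γ : ℝ) * (m : ℝ)) * (-η)) *
        χ (a - ((α : ZMod q) * (m : ZMod q) ^ 2 + (γ : ZMod q) * (m : ZMod q)))‖ ≤ Real.sqrt N / L ^ B₂)
    (hB₂ : 2 * C₃ + A + 9 ≤ 2 * B₂) :
    ‖TT α γ G y N q η a‖ ^ 2 ≤ (N : ℝ) ^ 3 / (q ^ 2 * L ^ A) := by
  have hL0 : 0 < L := by linarith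
  have hL1 : 1 ≤ L := by linarith
  have hNp : (0 : ℝ) < N := by exact_mod_cast hN
  have hN1 : (1 : ℝ) ≤ N := by exact_mod_cast hN
  have hq0 : 0 < q := Nat.pos_of_ne_zero (NeZero.ne q)
  have hqr : (0 : ℝ) < q := by exact_mod_cast hq0
  have hφ0 : (0 : ℝ) < q.totient := by exact_mod_cast Nat.totient_pos.2 hq0
  have hss : Real.sqrt N * Real.sqrt N = N := Real.mul_self_sqrt hNp.le
  have hs2 : Real.sqrt N ^ 2 = N := Real.sq_sqrt hNp.le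
  have hs0 : 0 < Real.sqrt N := Real.sqrt_pos.2 hNp
  have hsN : Real.sqrt N ≤ N := by
    rw [Real.sqrt_le_left hNp.le]
    nlinarith
  have hqN' : (q : ℝ) ≤ N := hqN.trans hsN
  have hφ : ((q.totient : ℝ))⁻¹ ≤ 3 * L / q := by
    have h1 := q_le_phi hq0
    have h2 : Real.log q ≤ L := by
      rw [hL]
      exact Real.log_le_log hqr hqN'
    rw [inv_eq_one_div, div_le_div_iff₀ hφ0 hqr, one_mul]
    refine h1.trans ?_
    rw [mul_comm (3 * L)]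
    apply mul_le_mul_of_nonneg_left _ hφ0.le
    linarith
  have hyr : (y : ℝ) ≤ Real.sqrt N := by
    apply Real.le_sqrt_of_sq_le
    exact_mod_cast hy
  obtain ⟨BF, hBF1, hBF2, hBF3⟩ := good_mean h3 G (A := A + T + 2) hL hL200 hN hqN' B hBc hgood hnon hsm hU
  have t1 := part_good (y := y) (N := N) (γ := γ) hα (fun l => cl q N G η l - clB q N G η BF l) a η
  have t2 := part_bad (y := y) (N := N) (α := α) (γ := γ) G a η BF (X := L ^ C₃) (Y := N * L ^ 2) (Z := Real.sqrt N / L ^ B₂)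
    hBF1 (by
      intro χ _
      unfold cs
      calc ‖∑ n ∈ Icc 1 N, G n * χ (n : ZMod q) * ee (n * η)‖ ≤ ∑ _n ∈ Icc 1 N, L ^ 2 := by
            refine (norm_sum_le _ _).trans (sum_le_sum fun n hn => ?_)
            rw [norm_mul, norm_mul, norm_ee, mul_one]
            have h1 := hG n hn
            have h2 := DirichletCharacter.norm_le_one χ (n : ZMod q)
            calc ‖G n‖ * ‖χ (n : ZMod q)‖ ≤ ‖G n‖ * 1 := mul_le_mul_of_nonneg_left h2 (norm_nonneg _)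
              _ ≤ L ^ 2 := by rw [mul_one]; exact h1
        _ = N * L ^ 2 := by rw [sum_const, Nat.card_Icc, nsmul_eq_mul, Nat.add_sub_cancel])
    (by positivity) (fun χ hχ => hsh χ (hBF2 χ hχ)) (by positivity)
  have hTT : TT α γ G y N q η a =
      ∑ m ∈ Icc 1 y, ee (((α : ℝ) * (m : ℝ) ^ 2 + (γ : ℝ) * (m : ℝ)) * η) * (fun l => cl q N G η l - clB q N G η BF l)
        (a - ((α : ZMod q) * (m : ZMod q) ^ 2 + (γ : ZMod q) * (m : ZMod q))) +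
      ∑ m ∈ Icc 1 y, ee (((α : ℝ) * (m : ℝ) ^ 2 + (γ : ℝ) * (m : ℝ)) * η) * clB q N G η BF (a - ((α : ZMod q) * (m : ZMod q) ^ 2 + (γ : ZMod q) * (m : ZMod q))) := by
    unfold TT
    rw [← sum_add_distrib]
    refine sum_congr rfl fun m _ => ?_
    ring
  obtain ⟨X, hX⟩ : ∃ X, X = ‖∑ m ∈ Icc 1 y, ee (((α : ℝ) * (m : ℝ) ^ 2 + (γ : ℝ) * (m : ℝ)) * η) *
    (fun l => cl q N G η l - clB q N G η BF l) (a - ((α : ZMod q) * (m : ZMod q) ^ 2 + (γ : ZMod q) * (m : ZMod q)))‖ := ⟨_, rfl⟩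
  obtain ⟨Y, hY⟩ : ∃ Y, Y = ‖∑ m ∈ Icc 1 y, ee (((α : ℝ) * (m : ℝ) ^ 2 + (γ : ℝ) * (m : ℝ)) * η) *
    clB q N G η BF (a - ((α : ZMod q) * (m : ZMod q) ^ 2 + (γ : ZMod q) * (m : ZMod q)))‖ := ⟨_, rfl⟩
  have k0 : ‖TT α γ G y N q η a‖ ≤ X + Y := by
    rw [hTT, hX, hY]
    exact norm_add_le _ _
  rw [← hX] at t1
  rw [← hY] at t2
  have hX0 : 0 ≤ X := by rw [hX]; exact norm_nonneg _
  have hY0 : 0 ≤ Y := by rw [hY]; exact norm_nonneg _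
  obtain ⟨E, hE⟩ : ∃ E, E = (N : ℝ) ^ 3 / (q ^ 2 * L ^ (A + 2)) := ⟨_, rfl⟩
  have hE0 : 0 ≤ E := by rw [hE]; positivity
  have u1 : X ^ 2 ≤ E := by
    refine t1.trans ?_
    have e1 : (y : ℝ) / q + 1 ≤ 2 * Real.sqrt N / q := by
      have h1 : (y : ℝ) / q ≤ Real.sqrt N / q := by gcongr
      have h2 : 1 ≤ Real.sqrt N / q := by rw [one_le_div hqr]; exact hqN
      have h3 : 2 * Real.sqrt N / q = Real.sqrt N / q + Real.sqrt N / q := by ring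
      linarith
    calc ((y : ℝ) / q + 1) ^ 2 * ((2 * |(α : ℝ)| * (q.divisors.card * q)) *
          ∑ l, ‖cl q N G η l - clB q N G η BF l‖ ^ 2)
        ≤ (2 * Real.sqrt N / q) ^ 2 * ((2 * |(α : ℝ)| * (L ^ T * q)) *
          ((N : ℝ) ^ 2 / (q * L ^ (A + T + 2 + 1)))) := by
          gcongr
      _ = (8 * |(α : ℝ)|) * (N ^ 3 / (q ^ 2 * L ^ (A + 2))) / L := by
          have h1 : L ^ (A + T + 2 + 1) = L ^ T * L ^ (A + 2) * L := by ring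
          rw [h1, div_pow, mul_pow, hs2]
          field_simp
          ring
      _ ≤ L * (N ^ 3 / (q ^ 2 * L ^ (A + 2))) / L := by gcongr
      _ = E := by rw [hE]; field_simp
  have u2 : Y ^ 2 ≤ E := by
    have e1 : Y ≤ (3 * L / q) * (L ^ C₃ * (N * L ^ 2 * (Real.sqrt N / L ^ B₂))) := by
      refine t2.trans ?_
      gcongr
    calc Y ^ 2 ≤ ((3 * L / q) * (L ^ C₃ * (N * L ^ 2 * (Real.sqrt N / L ^ B₂)))) ^ 2 :=
          pow_le_pow_left₀ hY0 e1 2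
      _ = N ^ 3 / q ^ 2 * (9 * L ^ (2 * C₃ + 6) / L ^ (2 * B₂)) := by
          have h1 : L ^ (2 * C₃ + 6) = (L ^ C₃) ^ 2 * L ^ 6 := by rw [← pow_mul]; ring
          have h2 : L ^ (2 * B₂) = (L ^ B₂) ^ 2 := by rw [← pow_mul]; ring
          have h3 : (Real.sqrt N / L ^ B₂) ^ 2 = N / (L ^ B₂) ^ 2 := by rw [div_pow, hs2]
          rw [h1, h2, mul_pow, mul_pow, mul_pow, h3, div_pow]
          field_simp
          ring
      _ ≤ N ^ 3 / q ^ 2 * (1 / L ^ (A + 2)) := by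
          have h1 : 9 * L ^ (2 * C₃ + 6) / L ^ (2 * B₂) ≤ 1 / L ^ (A + 2) := by
            rw [div_le_div_iff₀ (by positivity) (by positivity), one_mul]
            calc 9 * L ^ (2 * C₃ + 6) * L ^ (A + 2) ≤ L * L ^ (2 * C₃ + 6) * L ^ (A + 2) := by
                  gcongr; linarith
              _ = L ^ (2 * C₃ + A + 9) := by ring
              _ ≤ L ^ (2 * B₂) := pow_le_pow_right₀ hL1 hB₂
          gcongr
      _ = E := by rw [hE]; field_simp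
  calc ‖TT α γ G y N q η a‖ ^ 2 ≤ (X + Y) ^ 2 := pow_le_pow_left₀ (norm_nonneg _) k0 2
    _ ≤ 2 * X ^ 2 + 2 * Y ^ 2 := by nlinarith [sq_nonneg (X - Y)]
    _ ≤ 4 * E := by linarith
    _ ≤ L ^ 2 * E := by
        apply mul_le_mul_of_nonneg_right _ hE0
        nlinarith
    _ = _ := by
        rw [hE, pow_add L A 2]
        field_simp

end Pool.Agent.R460.SB
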