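import Pool.Agent.R460.SB.Pars

set_option autoImplicit false

/-! The quadratic sums on the minor arcs. -/

namespace Pool.Agent.R460.SB

open Finset
open Pool.Agent.H807R2.Dav (ee norm_ee ee_add KK KK_nonneg geo_bound vino)
open Pool.Agent.Y697.GJ (conj_ee)

/-- the weights -/
noncomputable def wq (α γ : ℤ) (β : ℝ) (m : ℕ) : ℂ := ee (((α : ℝ) * (m : ℝ) ^ 2 + (γ : ℝ) * (m : ℝ)) * β)

lemma SF_sq (α γ : ℤ) (y q : ℕ) [NeZero q] (β : ℝ) :
    ((∑ k : ZMod q, ‖SF α γ y q β k‖ ^ 2 : ℝ) : ℂ) =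
      ∑ p ∈ (Icc 1 y ×ˢ Icc 1 y).filter (fun p : ℕ × ℕ => (p.1 : ZMod q) = (p.2 : ZMod q)),
        wq α γ β p.1 * (starRingEnd ℂ) (wq α γ β p.2) := by
  rw [sum_filter, sum_product]
  push_cast
  have h1 : ∀ k : ZMod q, ((‖SF α γ y q β k‖ : ℝ) : ℂ) ^ 2 =
      ∑ m ∈ (Icc 1 y).filter (fun m : ℕ => (m : ZMod q) = k),
        ∑ m' ∈ (Icc 1 y).filter (fun m' : ℕ => (m' : ZMod q) = k),
          wq α γ β m * (starRingEnd ℂ) (wq α γ β m') := by
    intro k
    rw [← Complex.ofReal_pow, ← Complex.normSq_eq_norm_sq, ← Complex.mul_conj]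
    unfold SF wq
    rw [map_sum, sum_mul_sum]
  rw [sum_congr rfl fun k _ => h1 k, ← Finset.sum_fiberwise (Icc 1 y) (fun m : ℕ => (m : ZMod q))
    (fun m => ∑ y_1 ∈ Icc 1 y, if (m : ZMod q) = (y_1 : ZMod q) then
      wq α γ β m * (starRingEnd ℂ) (wq α γ β y_1) else 0)]
  refine sum_congr rfl fun k _ => sum_congr rfl fun m hm => ?_
  rw [sum_filter]
  refine sum_congr rfl fun m' _ => ?_
  rw [(mem_filter.1 hm).2]
  by_cases h : (m' : ZMod q) = k
  · rw [if_pos h, if_pos h.symm]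
  · rw [if_neg h, if_neg (Ne.symm h)]

/-- the half below the diagonal -/
noncomputable def Bq (α γ : ℤ) (y q : ℕ) (β : ℝ) : ℂ :=
  ∑ p ∈ (Icc 1 y ×ˢ Icc 1 y).filter (fun p : ℕ × ℕ => (p.1 : ZMod q) = (p.2 : ZMod q) ∧ p.2 < p.1),
    wq α γ β p.1 * (starRingEnd ℂ) (wq α γ β p.2)

lemma split3 (α γ : ℤ) (y q : ℕ) (β : ℝ) :
    ∑ p ∈ (Icc 1 y ×ˢ Icc 1 y).filter (fun p : ℕ × ℕ => (p.1 : ZMod q) = (p.2 : ZMod q)),
        wq α γ β p.1 * (starRingEnd ℂ) (wq α γ β p.2) =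
      (Bq α γ y q β + (starRingEnd ℂ) (Bq α γ y q β)) + y := by
  have e1 : (Icc 1 y ×ˢ Icc 1 y).filter (fun p : ℕ × ℕ => (p.1 : ZMod q) = (p.2 : ZMod q)) =
      ((Icc 1 y ×ˢ Icc 1 y).filter (fun p : ℕ × ℕ => (p.1 : ZMod q) = (p.2 : ZMod q) ∧ p.2 < p.1) ∪
        (Icc 1 y ×ˢ Icc 1 y).filter (fun p : ℕ × ℕ => (p.1 : ZMod q) = (p.2 : ZMod q) ∧ p.1 < p.2)) ∪
        (Icc 1 y ×ˢ Icc 1 y).filter (fun p : ℕ × ℕ => p.1 = p.2) := by
    ext p
    simp only [mem_union, mem_filter]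
    constructor
    · rintro ⟨h1, h2⟩
      rcases lt_trichotomy p.1 p.2 with h | h | h
      · exact Or.inl (Or.inr ⟨h1, h2, h⟩)
      · exact Or.inr ⟨h1, h⟩
      · exact Or.inl (Or.inl ⟨h1, h2, h⟩)
    · rintro ((⟨h1, h2, -⟩ | ⟨h1, h2, -⟩) | ⟨h1, h2⟩)
      · exact ⟨h1, h2⟩
      · exact ⟨h1, h2⟩
      · exact ⟨h1, by rw [h2]⟩
  rw [e1, sum_union, sum_union]
  · congr 1
    · congr 1
      unfold Bq
      rw [map_sum]
      refine sum_nbij' (fun p => (p.2, p.1)) (fun p => (p.2, p.1)) ?_ ?_ ?_ ?_ ?_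
      · intro p hp
        rw [mem_filter, mem_product] at hp ⊢
        exact ⟨⟨hp.1.2, hp.1.1⟩, hp.2.1.symm, hp.2.2⟩
      · intro p hp
        rw [mem_filter, mem_product] at hp ⊢
        exact ⟨⟨hp.1.2, hp.1.1⟩, hp.2.1.symm, hp.2.2⟩
      · intro p _; rfl
      · intro p _; rfl
      · intro p _
        rw [map_mul, Complex.conj_conj, mul_comm]
    · have e2 : (Icc 1 y ×ˢ Icc 1 y).filter (fun p : ℕ × ℕ => p.1 = p.2) = (Icc 1 y).image (fun m => (m, m)) := by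
        ext p
        simp only [mem_filter, mem_product, mem_image]
        constructor
        · rintro ⟨⟨h1, h2⟩, h3⟩
          exact ⟨p.1, h1, by ext <;> simp [h3]⟩
        · rintro ⟨m, h1, rfl⟩
          exact ⟨⟨h1, h1⟩, rfl⟩
      rw [e2, sum_image (by
        intro a _ b _ h
        simpa using h)]
      have h3 : ∀ m ∈ Icc 1 y, wq α γ β m * (starRingEnd ℂ) (wq α γ β m) = 1 := by
        intro m _
        rw [Complex.mul_conj, Complex.normSq_eq_norm_sq]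
        unfold wq
        rw [norm_ee]
        norm_num
      rw [sum_congr rfl h3, sum_const, Nat.card_Icc, nsmul_eq_mul, mul_one, Nat.add_sub_cancel]
  · rw [disjoint_left]
    intro p h1 h2
    have := (mem_filter.1 h1).2.2
    have := (mem_filter.1 h2).2.2
    omega
  · rw [disjoint_left]
    intro p h1 h2
    rw [mem_union, mem_filter, mem_filter] at h1
    have h3 := (mem_filter.1 h2).2
    rcases h1 with h | h
    · have := h.2.2
      omega
    · have := h.2.2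
      omega

lemma Bq_eq (α γ : ℤ) (y q : ℕ) [NeZero q] (β : ℝ) :
    Bq α γ y q β = ∑ j ∈ Icc 1 (y / q), ∑ m ∈ Icc 1 (y - q * j),
      wq α γ β (m + q * j) * (starRingEnd ℂ) (wq α γ β m) := by
  have hq : 0 < q := NeZero.pos q
  rw [Finset.sum_sigma']
  unfold Bq
  refine sum_nbij' (fun p => ⟨(p.1 - p.2) / q, p.2⟩) (fun s => (s.2 + q * s.1, s.2)) ?_ ?_ ?_ ?_ ?_
  · intro p hp
    rw [mem_filter, mem_product, mem_Icc, mem_Icc] at hp
    obtain ⟨⟨h1, h2⟩, h3, h4⟩ := hp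
    have h5 : q ∣ p.1 - p.2 := by
      have : p.2 ≡ p.1 [MOD q] := ((ZMod.natCast_eq_natCast_iff _ _ _).1 h3).symm
      exact (Nat.modEq_iff_dvd' h4.le).1 this
    have h6 : q * ((p.1 - p.2) / q) = p.1 - p.2 := Nat.mul_div_cancel' h5
    rw [mem_sigma, mem_Icc, mem_Icc]
    refine ⟨⟨?_, ?_⟩, h2.1, ?_⟩
    · rw [Nat.one_le_div_iff hq]
      exact Nat.le_of_dvd (by omega) h5
    · exact Nat.div_le_div_right (by omega)
    · simp only
      rw [h6]
      omega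
  · intro s hs
    rw [mem_sigma, mem_Icc, mem_Icc] at hs
    obtain ⟨⟨h1, h2⟩, h3, h4⟩ := hs
    rw [mem_filter, mem_product, mem_Icc, mem_Icc]
    have h5 : 0 < q * s.1 := Nat.mul_pos hq h1
    refine ⟨⟨⟨by omega, by omega⟩, h3, by omega⟩, ?_, by simp only; omega⟩
    push_cast
    rw [ZMod.natCast_self]
    ring
  · intro p hp
    rw [mem_filter, mem_product, mem_Icc, mem_Icc] at hp
    obtain ⟨⟨h1, h2⟩, h3, h4⟩ := hp
    have h5 : q ∣ p.1 - p.2 := by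
      have : p.2 ≡ p.1 [MOD q] := ((ZMod.natCast_eq_natCast_iff _ _ _).1 h3).symm
      exact (Nat.modEq_iff_dvd' h4.le).1 this
    have h6 : q * ((p.1 - p.2) / q) = p.1 - p.2 := Nat.mul_div_cancel' h5
    ext
    · simp only
      rw [h6]
      omega
    · rfl
  · intro s hs
    have h1 : (s.2 + q * s.1 - s.2) / q = s.1 := by
      rw [Nat.add_sub_cancel_left]
      exact Nat.mul_div_cancel_left _ hq
    ext
    · exact h1
    · rfl
  · intro p hp
    rw [mem_filter, mem_product, mem_Icc, mem_Icc] at hp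
    obtain ⟨⟨h1, h2⟩, h3, h4⟩ := hp
    have h5 : q ∣ p.1 - p.2 := by
      have : p.2 ≡ p.1 [MOD q] := ((ZMod.natCast_eq_natCast_iff _ _ _).1 h3).symm
      exact (Nat.modEq_iff_dvd' h4.le).1 this
    have h6 : q * ((p.1 - p.2) / q) = p.1 - p.2 := Nat.mul_div_cancel' h5
    simp only
    rw [h6]
    have : p.2 + (p.1 - p.2) = p.1 := by omega
    rw [this]

lemma inner_le (α γ : ℤ) (y q j : ℕ) (β : ℝ) :
    ‖∑ m ∈ Icc 1 (y - q * j), wq α γ β (m + q * j) * (starRingEnd ℂ) (wq α γ β m)‖ ≤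
      KK y (j * (2 * α * q * β)) := by
  have h1 : ∀ m ∈ Icc 1 (y - q * j), wq α γ β (m + q * j) * (starRingEnd ℂ) (wq α γ β m) =
      ee (((α : ℝ) * (q * j : ℝ) ^ 2 + γ * (q * j : ℝ)) * β) * ee (m * (j * (2 * α * q * β))) := by
    intro m _
    unfold wq
    rw [conj_ee, ← ee_add, ← ee_add]
    congr 1
    push_cast
    ring
  rw [sum_congr rfl h1, ← mul_sum, norm_mul, norm_ee, one_mul]
  have e : Icc 1 (y - q * j) = Ico 1 (y - q * j + 1) := by
    ext b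
    rw [mem_Icc, mem_Ico]
    omega
  rw [e]
  apply geo_bound 1 (y - q * j + 1) (by omega)
  have : ((y - q * j : ℕ) : ℝ) ≤ y := by exact_mod_cast Nat.sub_le _ _
  push_cast
  linarith

/-- the mean square over the classes -/
lemma SF_le (α γ : ℤ) (y q s : ℕ) [NeZero q] (β : ℝ) {h : ℤ} (hs : 1 ≤ s) (hcop : IsCoprime h (s : ℤ))
    (hβ : |2 * α * q * β - h / s| ≤ 1 / (s : ℝ) ^ 2) :
    ∑ k : ZMod q, ‖SF α γ y q β k‖ ^ 2 ≤
      y + 2 * ((((y / q + 1 : ℕ) : ℝ) / s + 1) * (39 * y + 3 * s * (1 + Real.log s))) := by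
  have h0 : 0 ≤ ∑ k : ZMod q, ‖SF α γ y q β k‖ ^ 2 := sum_nonneg fun _ _ => sq_nonneg _
  have h1 := SF_sq α γ y q β
  rw [split3] at h1
  have h2 : ‖Bq α γ y q β‖ ≤ (((y / q + 1 : ℕ) : ℝ) / s + 1) * (39 * y + 3 * s * (1 + Real.log s)) := by
    rw [Bq_eq]
    have hv := vino hs hcop hβ (M := (y : ℝ)) (Nat.cast_nonneg _) 0 (y / q + 1)
    refine le_trans ?_ hv
    calc ‖∑ j ∈ Icc 1 (y / q), ∑ m ∈ Icc 1 (y - q * j), wq α γ β (m + q * j) * (starRingEnd ℂ) (wq α γ β m)‖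
        ≤ ∑ j ∈ Icc 1 (y / q), KK y (0 + j * (2 * α * q * β)) := by
          refine (norm_sum_le _ _).trans (sum_le_sum fun j _ => ?_)
          rw [zero_add]
          exact inner_le α γ y q j β
      _ ≤ ∑ j ∈ range (y / q + 1), KK y (0 + j * (2 * α * q * β)) := by
          apply sum_le_sum_of_subset_of_nonneg
          · intro j hj
            rw [mem_Icc] at hj
            rw [mem_range]
            omega
          · intro j _ _
            exact KK_nonneg (Nat.cast_nonneg _) _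
  have h3 : ∑ k : ZMod q, ‖SF α γ y q β k‖ ^ 2 = ‖((∑ k : ZMod q, ‖SF α γ y q β k‖ ^ 2 : ℝ) : ℂ)‖ := by
    rw [Complex.norm_real, Real.norm_of_nonneg h0]
  rw [h3, h1]
  refine (norm_add_le _ _).trans ?_
  rw [Complex.norm_natCast]
  have h4 := norm_add_le (Bq α γ y q β) ((starRingEnd ℂ) (Bq α γ y q β))
  rw [RCLike.norm_conj] at h4
  linarith

/-- the minor arcs -/
lemma SF_min {α γ : ℤ} {y q s N A : ℕ} [NeZero q] {L : ℝ} (hL : L = Real.log N) (hL300 : 300 ≤ L) (hN : 1 ≤ N)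
    (hy : y ^ 2 ≤ N) (hq : (q : ℝ) * L ^ (A + 2) ≤ Real.sqrt N) (β : ℝ) {h : ℤ}
    (hs : L ^ (A + 2) ≤ s) (hs2 : (q : ℝ) * s * L ^ (A + 2) ≤ N) (hcop : IsCoprime h (s : ℤ))
    (hβ : |2 * α * q * β - h / s| ≤ 1 / (s : ℝ) ^ 2) :
    ∑ k : ZMod q, ‖SF α γ y q β k‖ ^ 2 ≤ N / (q * L ^ A) := by
  have hL0 : 0 < L := by linarith
  have hL1 : 1 ≤ L := by linarith
  have hN0 : (0 : ℝ) < N := by exact_mod_cast hN
  have hq0 : (0 : ℝ) < q := by exact_mod_cast NeZero.pos q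
  have hq1 : (1 : ℝ) ≤ q := by exact_mod_cast NeZero.pos q
  obtain ⟨M, hM⟩ : ∃ M, M = Real.sqrt N := ⟨_, rfl⟩
  rw [← hM] at hq
  have hM0 : 0 < M := by rw [hM]; exact Real.sqrt_pos.2 hN0
  have hMM : M * M = N := by rw [hM]; exact Real.mul_self_sqrt hN0.le
  have hyr : (y : ℝ) ≤ M := by
    rw [hM]
    apply Real.le_sqrt_of_sq_le
    exact_mod_cast hy
  obtain ⟨P, hP⟩ : ∃ P, P = L ^ (A + 2) := ⟨_, rfl⟩
  rw [← hP] at hq hs hs2
  have hP1 : 1 ≤ P := by rw [hP]; exact one_le_pow₀ hL1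
  have hP0 : 0 < P := by linarith
  have hs0 : (0 : ℝ) < s := by linarith
  have hs1 : 1 ≤ s := by exact_mod_cast hs0
  have hsN : (s : ℝ) ≤ N := by
    calc (s : ℝ) = 1 * s * 1 := by ring
      _ ≤ q * s * P := by gcongr
      _ ≤ N := hs2
  have hls : Real.log s ≤ L := by
    rw [hL]
    exact Real.log_le_log hs0 hsN
  have hls0 : 0 ≤ Real.log s := Real.log_natCast_nonneg _
  have hqM : (q : ℝ) ≤ M := by
    refine le_trans ?_ hq
    nlinarith
  have hH : ((y / q + 1 : ℕ) : ℝ) ≤ 2 * M / q := by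
    push_cast
    have h1 : ((y / q : ℕ) : ℝ) ≤ (y : ℝ) / q := Nat.cast_div_le
    have h2 : (y : ℝ) / q ≤ M / q := by gcongr
    have h3 : 1 ≤ M / q := by rw [one_le_div hq0]; exact hqM
    have h4 : 2 * M / q = M / q + M / q := by ring
    linarith
  refine (SF_le α γ y q s β hs1 hcop hβ).trans ?_
  obtain ⟨Z, hZ⟩ : ∃ Z, Z = (N : ℝ) / (q * P) := ⟨_, rfl⟩
  have hZ0 : 0 < Z := by rw [hZ]; positivity
  -- the four terms
  have t1 : (2 * M / q) / s * M ≤ 2 * Z := by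
    rw [hZ]
    calc (2 * M / q) / s * M = 2 * (M * M) / (q * s) := by field_simp
      _ = 2 * (N / (q * s)) := by rw [hMM]; ring
      _ ≤ 2 * (N / (q * P)) := by gcongr
  have t2 : (2 * M / q) * L ≤ 2 * (Z * L) := by
    have : M / q ≤ Z := by
      rw [hZ, div_le_div_iff₀ hq0 (by positivity), ← hMM]
      have : P ≤ M := by
        refine le_trans ?_ hq
        nlinarith
      calc M * (q * P) = M * q * P := by ring
        _ ≤ M * q * M := by gcongr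
        _ = M * M * q := by ring
    calc (2 * M / q) * L = 2 * (M / q * L) := by ring
      _ ≤ 2 * (Z * L) := by gcongr
  have t3 : M ≤ Z := by
    rw [hZ, le_div_iff₀ (by positivity), ← hMM]
    gcongr
  have t4 : s * L ≤ Z * L := by
    apply mul_le_mul_of_nonneg_right _ hL0.le
    rw [hZ, le_div_iff₀ (by positivity)]
    calc (s : ℝ) * (q * P) = q * s * P := by ring
      _ ≤ N := hs2
  have e1 : (((y / q + 1 : ℕ) : ℝ) / s + 1) * (39 * y + 3 * s * (1 + Real.log s)) ≤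
      ((2 * M / q) / s + 1) * (39 * M + 6 * (s * L)) := by
    have : 39 * (y : ℝ) + 3 * s * (1 + Real.log s) ≤ 39 * M + 6 * (s * L) := by
      have : 3 * (s : ℝ) * (1 + Real.log s) ≤ 6 * (s * L) := by
        calc 3 * (s : ℝ) * (1 + Real.log s) ≤ 3 * s * (2 * L) := by
              apply mul_le_mul_of_nonneg_left _ (by positivity)
              linarith
          _ = _ := by ring
      linarith
    gcongr
  have e2 : ((2 * M / q) / s + 1) * (39 * M + 6 * (s * L)) =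
      39 * ((2 * M / q) / s * M) + 6 * ((2 * M / q) * L) + 39 * M + 6 * (s * L) := by
    field_simp
    ring
  have e3 : ((2 * M / q) / s + 1) * (39 * M + 6 * (s * L)) ≤ 78 * Z + 12 * (Z * L) + 39 * Z + 6 * (Z * L) := by
    rw [e2]
    linarith
  have hZL : Z ≤ Z * L := by nlinarith
  have e4 : (y : ℝ) + 2 * ((((y / q + 1 : ℕ) : ℝ) / s + 1) * (39 * y + 3 * s * (1 + Real.log s))) ≤ 300 * (Z * L) := by
    linarith
  refine e4.trans ?_
  have e5 : (N : ℝ) / (q * L ^ A) = Z * L * L := by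
    rw [hZ, hP, pow_add]
    field_simp
  rw [e5]
  have : 0 ≤ Z * L := by positivity
  calc 300 * (Z * L) ≤ L * (Z * L) := by gcongr
    _ = _ := by ring

end Pool.Agent.R460.SB
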