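import Pool.Agent.R460.SB.Cnt
import Pool.Agent.R460.SQ.Per

set_option autoImplicit false

/-! Incomplete sums of a character over the values of a quadratic polynomial, with a linear term. -/

namespace Pool.Agent.R460.SB

open Finset
open Pool.Agent.H807R2.Dav (ee norm_ee ee_add dd dd_le)
open Pool.Agent.Y614.GJ.Core (q_le_phi)
open Pool.Agent.R460.GS (abelIBV)
open Pool.Agent.R460.SQ (sum_Icc_per ee_diff)

/-- the size of the polynomial -/
noncomputable def kap (α γ : ℤ) : ℝ := |(α : ℝ)| + |(γ : ℝ)|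

lemma kap_ge {α : ℤ} (hα : α ≠ 0) (γ : ℤ) : 1 ≤ |(α : ℝ)| ∧ |(α : ℝ)| ≤ kap α γ ∧ 1 ≤ kap α γ := by
  have hα1 : (1 : ℝ) ≤ |(α : ℝ)| := by
    rw [← Int.cast_abs]
    exact_mod_cast Int.one_le_abs hα
  have : 0 ≤ |(γ : ℝ)| := abs_nonneg _
  unfold kap
  refine ⟨hα1, by linarith, by linarith⟩

lemma kap_nat (α γ : ℤ) : ((α.natAbs + γ.natAbs : ℕ) : ℝ) = kap α γ := by
  unfold kap
  push_cast
  rw [Nat.cast_natAbs, Nat.cast_natAbs, Int.cast_abs, Int.cast_abs]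

lemma var_le (α γ : ℤ) (η : ℝ) (y : ℕ) :
    ∑ i ∈ range y, ‖ee (((α : ℝ) * ((i + 1 : ℕ) : ℝ) ^ 2 + (γ : ℝ) * ((i + 1 : ℕ) : ℝ)) * η) -
      ee (((α : ℝ) * (i : ℝ) ^ 2 + (γ : ℝ) * (i : ℝ)) * η)‖ ≤
      2 * Real.pi * kap α γ * |η| * (y : ℝ) ^ 2 := by
  induction y with
  | zero => simp
  | succ y ih =>
    rw [sum_range_succ]
    have h1 := ee_diff (((α : ℝ) * ((y + 1 : ℕ) : ℝ) ^ 2 + (γ : ℝ) * ((y + 1 : ℕ) : ℝ)) * η)
      (((α : ℝ) * (y : ℝ) ^ 2 + (γ : ℝ) * (y : ℝ)) * η)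
    have h2 : ((α : ℝ) * ((y + 1 : ℕ) : ℝ) ^ 2 + (γ : ℝ) * ((y + 1 : ℕ) : ℝ)) * η -
        ((α : ℝ) * (y : ℝ) ^ 2 + (γ : ℝ) * (y : ℝ)) * η = (α * (2 * y + 1) + γ) * η := by
      push_cast
      ring
    rw [h2, abs_mul] at h1
    have hy0 : (0 : ℝ) ≤ y := Nat.cast_nonneg _
    have h4 : |(α : ℝ) * (2 * y + 1) + γ| ≤ kap α γ * (2 * y + 1) := by
      refine (abs_add_le _ _).trans ?_
      rw [abs_mul, abs_of_nonneg (by positivity : (0 : ℝ) ≤ 2 * y + 1)]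
      unfold kap
      nlinarith [abs_nonneg (γ : ℝ), mul_nonneg (abs_nonneg (γ : ℝ)) hy0]
    have h5 : 2 * Real.pi * (|(α : ℝ) * (2 * y + 1) + γ| * |η|) ≤ 2 * Real.pi * (kap α γ * (2 * y + 1) * |η|) := by
      gcongr
    have h3 : 2 * Real.pi * kap α γ * |η| * ((y + 1 : ℕ) : ℝ) ^ 2 =
        2 * Real.pi * kap α γ * |η| * (y : ℝ) ^ 2 + 2 * Real.pi * (kap α γ * (2 * y + 1) * |η|) := by
      push_cast
      ring
    linarith

/-- the twisted incomplete sum -/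
lemma W_le {q : ℕ} [NeZero q] (α γ : ℤ) (χ : DirichletCharacter ℂ q) (a : ZMod q) (η : ℝ) (y : ℕ) :
    ‖∑ m ∈ Icc 1 y, ee (((α : ℝ) * (m : ℝ) ^ 2 + (γ : ℝ) * (m : ℝ)) * η) *
        χ (a - ((α : ZMod q) * (m : ZMod q) ^ 2 + (γ : ZMod q) * (m : ZMod q)))‖ ≤
      ((y : ℝ) / q * ‖Sq α (γ : ZMod q) χ a‖ + q) * (1 + 2 * Real.pi * kap α γ * |η| * (y : ℝ) ^ 2) := by
  have h := abelIBV (fun m : ℕ => χ (a - ((α : ZMod q) * (m : ZMod q) ^ 2 + (γ : ZMod q) * (m : ZMod q))))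
    (fun m : ℕ => ee (((α : ℝ) * (m : ℝ) ^ 2 + (γ : ℝ) * (m : ℝ)) * η)) ((y : ℝ) / q * ‖Sq α (γ : ZMod q) χ a‖ + q) 1
    (2 * Real.pi * kap α γ * |η| * (y : ℝ) ^ 2) y ?_ ?_ ?_ zero_le_one
  · simpa only [smul_eq_mul] using h
  · intro m hm
    refine (sum_Icc_per (fun k => χ (a - ((α : ZMod q) * k ^ 2 + (γ : ZMod q) * k)))
      (fun k => DirichletCharacter.norm_le_one _ _) m).trans ?_
    have hmr : (m : ℝ) ≤ y := by exact_mod_cast hm
    have hq0 : (0 : ℝ) < q := by exact_mod_cast NeZero.pos q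
    have : (m : ℝ) / q ≤ (y : ℝ) / q := by gcongr
    have h3 := mul_le_mul_of_nonneg_right this (norm_nonneg (Sq α (γ : ZMod q) χ a))
    unfold Sq at h3 ⊢
    linarith
  · intro m _
    rw [norm_ee]
  · exact var_le α γ η y

/-- the twisted incomplete sum, large conductor -/
lemma shq {q N : ℕ} [NeZero q] {α γ : ℤ} (hα : α ≠ 0) {B C T : ℕ} {L : ℝ} (hL : L = Real.log N)
    (hLα : 96 * kap α γ ^ 2 ≤ L) (hN : 1 ≤ N)
    (hqN : (q : ℝ) ≤ N) (hq : (q : ℝ) * L ^ (B + C + 2) ≤ Real.sqrt N) (hτ : (q.divisors.card : ℝ) ≤ L ^ T)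
    (χ : DirichletCharacter ℂ q) (hχ : L ^ (3 * T + 4 + 2 * (B + C + 2)) < χ.conductor) (a : ZMod q)
    (ha : (Nat.gcd (4 * (α : ZMod q) * a + (γ : ZMod q) ^ 2).val q : ℝ) ≤ L ^ T) (η : ℝ) (hη : |η| ≤ L ^ C / N)
    (y : ℕ) (hy : y ^ 2 ≤ N) :
    ‖∑ m ∈ Icc 1 y, ee (((α : ℝ) * (m : ℝ) ^ 2 + (γ : ℝ) * (m : ℝ)) * η) *
      χ (a - ((α : ZMod q) * (m : ZMod q) ^ 2 + (γ : ZMod q) * (m : ZMod q)))‖ ≤ Real.sqrt N / L ^ B := by
  obtain ⟨hα1, hακ, hκ1⟩ := kap_ge hα γ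
  obtain ⟨κ, hκ⟩ : ∃ κ, κ = kap α γ := ⟨_, rfl⟩
  rw [← hκ] at hακ hκ1 hLα
  have hL8 : 8 ≤ L := by nlinarith
  have hL0 : 0 < L := by linarith
  have hL1 : 1 ≤ L := by linarith
  have hN0 : (0 : ℝ) < N := by exact_mod_cast hN
  have hq0 : (0 : ℝ) < q := by exact_mod_cast NeZero.pos q
  have hc0 : (0 : ℝ) < χ.conductor := lt_of_le_of_lt (by positivity) hχ
  have hφ0 : (0 : ℝ) < q.totient := by exact_mod_cast Nat.totient_pos.2 (NeZero.pos q)
  have hlq : Real.log q ≤ L := by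
    rw [hL]
    exact Real.log_le_log hq0 hqN
  have hlq0 : 0 ≤ Real.log q := Real.log_natCast_nonneg _
  obtain ⟨B', hB'⟩ : ∃ B', B' = B + C + 2 := ⟨_, rfl⟩
  rw [← hB'] at hq hχ
  -- the complete sum
  have h1 : ‖Sq α (γ : ZMod q) χ a‖ ≤ q / L ^ B' := by
    have e1 := Sq_le hα (γ : ZMod q) χ a
    have e2 : (q : ℝ) ≤ 3 * L * q.totient := by
      have h1 := q_le_phi (NeZero.pos q)
      calc (q : ℝ) ≤ q.totient * (1 + 2 * Real.log q) := by
            refine h1.trans (le_of_eq ?_)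
            ring
        _ ≤ q.totient * (3 * L) := by
            apply mul_le_mul_of_nonneg_left _ hφ0.le
            linarith
        _ = _ := by ring
    have e3 : (q / Real.sqrt χ.conductor * (1 + Real.log q)) ^ 2 = q ^ 2 * (1 + Real.log q) ^ 2 / χ.conductor := by
      rw [mul_pow, div_pow, Real.sq_sqrt hc0.le]
      ring
    rw [e3] at e1
    have e4 : (q.totient : ℝ) * ‖Sq α (γ : ZMod q) χ a‖ ^ 2 ≤ q.totient * (q / L ^ B') ^ 2 := by
      refine e1.trans ?_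
      calc 2 * |(α : ℝ)| * ((2 * (Nat.gcd (4 * (α : ZMod q) * a + (γ : ZMod q) ^ 2).val q : ℝ) * q.divisors.card) *
            (q ^ 2 * (1 + Real.log q) ^ 2 / χ.conductor * (2 * |(α : ℝ)| * (q.divisors.card * q))))
          ≤ 2 * κ * ((2 * L ^ T * L ^ T) * (q ^ 2 * (2 * L) ^ 2 / L ^ (3 * T + 4 + 2 * B') *
            (2 * κ * (L ^ T * (3 * L * q.totient))))) := by
            gcongr
            linarith
        _ = q.totient * (q / L ^ B') ^ 2 * (96 * κ ^ 2) / L := by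
            have : L ^ (3 * T + 4 + 2 * B') = L ^ T * L ^ T * L ^ T * L ^ 4 * (L ^ B') ^ 2 := by
              rw [← pow_mul]
              ring
            rw [this]
            field_simp
            ring
        _ ≤ q.totient * (q / L ^ B') ^ 2 * L / L := by gcongr
        _ = _ := by field_simp
    have e5 := le_of_mul_le_mul_left e4 hφ0
    exact (pow_le_pow_iff_left₀ (norm_nonneg _) (by positivity) two_ne_zero).1 e5
  have hyr : (y : ℝ) ≤ Real.sqrt N := by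
    apply Real.le_sqrt_of_sq_le
    exact_mod_cast hy
  have hy2 : (y : ℝ) ^ 2 ≤ N := by exact_mod_cast hy
  have h2 : (y : ℝ) / q * ‖Sq α (γ : ZMod q) χ a‖ + q ≤ 2 * (Real.sqrt N / L ^ B') := by
    have e1 : (y : ℝ) / q * ‖Sq α (γ : ZMod q) χ a‖ ≤ Real.sqrt N / L ^ B' := by
      calc (y : ℝ) / q * ‖Sq α (γ : ZMod q) χ a‖ ≤ Real.sqrt N / q * (q / L ^ B') := by gcongr
        _ = _ := by field_simp
    have e2 : (q : ℝ) ≤ Real.sqrt N / L ^ B' := by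
      rw [le_div_iff₀ (by positivity)]
      exact hq
    linarith
  have h3 : 1 + 2 * Real.pi * κ * |η| * (y : ℝ) ^ 2 ≤ L ^ (C + 1) := by
    have e1 : |η| * (y : ℝ) ^ 2 ≤ L ^ C := by
      calc |η| * (y : ℝ) ^ 2 ≤ L ^ C / N * N := by gcongr
        _ = L ^ C := by field_simp
    have hpi := Real.pi_lt_four
    have e2 : 2 * Real.pi * κ * |η| * (y : ℝ) ^ 2 ≤ 8 * κ * L ^ C := by
      calc 2 * Real.pi * κ * |η| * (y : ℝ) ^ 2 = 2 * Real.pi * κ * (|η| * (y : ℝ) ^ 2) := by ring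
        _ ≤ 2 * 4 * κ * L ^ C := by gcongr
        _ = _ := by ring
    have e3 : 1 ≤ L ^ C := one_le_pow₀ hL1
    have e4 : 1 + 8 * κ * L ^ C ≤ 9 * κ * L ^ C := by nlinarith
    have e5 : 9 * κ * L ^ C ≤ L * L ^ C := by
      apply mul_le_mul_of_nonneg_right _ (by positivity)
      nlinarith
    have e6 : L ^ (C + 1) = L * L ^ C := by ring
    rw [e6]
    linarith
  refine (W_le α γ χ a η y).trans ?_
  rw [← hκ]
  calc _ ≤ 2 * (Real.sqrt N / L ^ B') * L ^ (C + 1) := by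
        apply mul_le_mul h2 h3 (by positivity) (by positivity)
    _ = Real.sqrt N / L ^ B * (2 / L) := by
        rw [hB', show B + C + 2 = B + (C + 1) + 1 by ring, pow_succ, pow_add]
        field_simp
    _ ≤ Real.sqrt N / L ^ B * 1 := by
        apply mul_le_mul_of_nonneg_left _ (by positivity)
        rw [div_le_one hL0]
        linarith
    _ = _ := mul_one _

end Pool.Agent.R460.SB
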