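import Pool.Agent.R460.SB.Fin

set_option autoImplicit false

/-! The number of the prime values, without weights. -/

namespace Pool.Agent.R460.SB

open Finset
open Pool.Agent.H373R2.T7 (lamz Vz pz Vz_pos Vz_inv_small nuB nuB_le mem_pz)
open Pool.Agent.Y614.GJ.Core (ev_log)
open Pool.Agent.R460.SQ (thp)
open Pool.Agent.R460.GS (abelIBV)

lemma fv_two {a b c : ℤ} (ha : 0 < a) (hc : b ^ 2 + 2 ≤ c) (t : ℕ) : 2 ≤ fv (-a) (-b) c t := by
  unfold fv
  have h1 : (1 : ℤ) * (t : ℤ) ^ 2 ≤ a * (t : ℤ) ^ 2 := mul_le_mul_of_nonneg_right ha (sq_nonneg _)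
  nlinarith [sq_nonneg ((t : ℤ) + b), sq_nonneg ((t : ℤ) - b), sq_nonneg (t : ℤ), sq_nonneg b]

lemma fv_mono {a b c : ℤ} (ha : 0 < a) {t : ℕ} (ht : b.natAbs ≤ t) : fv (-a) (-b) c t ≤ fv (-a) (-b) c (t + 1) := by
  have h1 : -(t : ℤ) ≤ b := by omega
  have h2 : fv (-a) (-b) c (t + 1) - fv (-a) (-b) c t = a * (2 * (t : ℤ) + 1) + b := by
    unfold fv
    push_cast
    ring
  have h3 : (1 : ℤ) * (2 * (t : ℤ) + 1) ≤ a * (2 * (t : ℤ) + 1) := mul_le_mul_of_nonneg_right ha (by positivity)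
  linarith

/-- the weight -/
noncomputable def wl (a b c : ℤ) (t : ℕ) : ℝ := 1 / Real.log ((fv (-a) (-b) c t : ℤ) : ℝ)

lemma wl_bd {a b c : ℤ} (ha : 0 < a) (hc : b ^ 2 + 2 ≤ c) (t : ℕ) : 0 < wl a b c t ∧ wl a b c t ≤ 2 := by
  have h1 : (2 : ℝ) ≤ ((fv (-a) (-b) c t : ℤ) : ℝ) := by exact_mod_cast fv_two ha hc t
  have h2 : Real.log 2 ≤ Real.log ((fv (-a) (-b) c t : ℤ) : ℝ) := Real.log_le_log two_pos h1
  have h3 : (1 : ℝ) / 2 ≤ Real.log 2 := by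
    have := Real.log_two_gt_d9
    linarith
  have h4 : 0 < Real.log ((fv (-a) (-b) c t : ℤ) : ℝ) := by linarith
  unfold wl
  refine ⟨by positivity, ?_⟩
  rw [div_le_iff₀ h4]
  linarith

lemma wl_mono {a b c : ℤ} (ha : 0 < a) (hc : b ^ 2 + 2 ≤ c) {t : ℕ} (ht : b.natAbs ≤ t) :
    wl a b c (t + 1) ≤ wl a b c t := by
  have h1 : (2 : ℝ) ≤ ((fv (-a) (-b) c t : ℤ) : ℝ) := by exact_mod_cast fv_two ha hc t
  have h2 : ((fv (-a) (-b) c t : ℤ) : ℝ) ≤ ((fv (-a) (-b) c (t + 1) : ℤ) : ℝ) := by exact_mod_cast fv_mono ha ht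
  unfold wl
  apply one_div_le_one_div_of_le (Real.log_pos (by linarith))
  exact Real.log_le_log (by linarith) h2

lemma wl_var {a b c : ℤ} (ha : 0 < a) (hc : b ^ 2 + 2 ≤ c) (y : ℕ) :
    ∑ i ∈ range y, |wl a b c (i + 1) - wl a b c i| ≤ 4 * (min y b.natAbs : ℕ) + 2 - wl a b c y := by
  induction y with
  | zero =>
    have := wl_bd ha hc 0
    simp
    linarith
  | succ y ih =>
    rw [sum_range_succ]
    obtain ⟨p1, p2⟩ := wl_bd ha hc y
    obtain ⟨p3, p4⟩ := wl_bd ha hc (y + 1)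
    rcases lt_or_ge y b.natAbs with h | h
    · rw [min_eq_left h.le] at ih
      rw [min_eq_left (by omega : y + 1 ≤ b.natAbs)]
      have : |wl a b c (y + 1) - wl a b c y| ≤ 4 + wl a b c y - wl a b c (y + 1) := by
        rw [abs_le]
        constructor <;> linarith
      push_cast
      linarith
    · rw [min_eq_right h] at ih
      rw [min_eq_right (by omega : b.natAbs ≤ y + 1)]
      have h2 := wl_mono ha hc h
      rw [abs_of_nonpos (by linarith)]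
      linarith

/-- partial summation -/
lemma unweight {a b c : ℤ} (ha : 0 < a) (hc : b ^ 2 + 2 ≤ c) {y : ℕ} {S ε : ℝ}
    (h : ∀ m ≤ y, |∑ t ∈ Icc 1 m, thp (fv (-a) (-b) c t).natAbs - S * m| ≤ ε) :
    |(((Icc 1 y).filter (fun t : ℕ => (fv (-a) (-b) c t).natAbs.Prime)).card : ℝ) -
      S * ∑ t ∈ Icc 1 y, wl a b c t| ≤ ε * (4 * b.natAbs + 4) := by
  have h1 := abelIBV (V := ℂ) (fun t => ((thp (fv (-a) (-b) c t).natAbs - S : ℝ) : ℂ)) (fun t => ((wl a b c t : ℝ) : ℂ))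
    ε 2 (4 * b.natAbs + 2) y ?_ ?_ ?_ (by norm_num)
  · have e1 : ∑ i ∈ Icc 1 y, ((wl a b c i : ℝ) : ℂ) • ((thp (fv (-a) (-b) c i).natAbs - S : ℝ) : ℂ) =
        (((((Icc 1 y).filter (fun t : ℕ => (fv (-a) (-b) c t).natAbs.Prime)).card : ℝ) -
          S * ∑ t ∈ Icc 1 y, wl a b c t : ℝ) : ℂ) := by
      rw [card_eq_sum_ones, Nat.cast_sum, sum_filter, mul_sum, ← sum_sub_distrib]
      push_cast
      refine sum_congr rfl fun t _ => ?_
      rw [smul_eq_mul]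
      have h2 := fv_two ha hc t
      have h3 : ((fv (-a) (-b) c t).natAbs : ℝ) = ((fv (-a) (-b) c t : ℤ) : ℝ) := by
        rw [Nat.cast_natAbs, abs_of_nonneg (by omega)]
      have h4 : (2 : ℝ) ≤ ((fv (-a) (-b) c t : ℤ) : ℝ) := by exact_mod_cast h2
      have h5 : Real.log ((fv (-a) (-b) c t : ℤ) : ℝ) ≠ 0 := (Real.log_pos (by linarith)).ne'
      unfold thp
      by_cases hp : (fv (-a) (-b) c t).natAbs.Prime
      · rw [if_pos hp, if_pos hp]
        have h6 : wl a b c t * (Real.log ((fv (-a) (-b) c t).natAbs : ℝ) - S) = 1 - S * wl a b c t := by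
          rw [h3]
          unfold wl
          field_simp
        calc ((wl a b c t : ℝ) : ℂ) * (((Real.log ((fv (-a) (-b) c t).natAbs : ℝ) : ℝ) : ℂ) - (S : ℂ)) =
            ((wl a b c t * (Real.log ((fv (-a) (-b) c t).natAbs : ℝ) - S) : ℝ) : ℂ) := by push_cast; ring
          _ = _ := by rw [h6]; push_cast; ring
      · rw [if_neg hp, if_neg hp]
        push_cast
        ring
    rw [e1, Complex.norm_real, Real.norm_eq_abs] at h1
    refine h1.trans (le_of_eq ?_)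
    ring
  · intro m hm
    have h2 := h m hm
    have e : ∑ i ∈ Icc 1 m, ((thp (fv (-a) (-b) c i).natAbs - S : ℝ) : ℂ) =
        ((∑ t ∈ Icc 1 m, thp (fv (-a) (-b) c t).natAbs - S * m : ℝ) : ℂ) := by
      rw [← Complex.ofReal_sum, sum_sub_distrib, sum_const, Nat.card_Icc, nsmul_eq_mul, Nat.add_sub_cancel]
      congr 1
      ring
    rw [e, Complex.norm_real, Real.norm_eq_abs]
    exact h2
  · intro i _
    rw [Complex.norm_real, Real.norm_eq_abs, abs_of_pos (wl_bd ha hc i).1]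
    exact (wl_bd ha hc i).2
  · have h2 := wl_var ha hc y
    have h3 := (wl_bd ha hc y).1
    have h4 : ((min y b.natAbs : ℕ) : ℝ) ≤ b.natAbs := by exact_mod_cast min_le_right _ _
    refine le_trans (le_of_eq ?_) (by linarith : ∑ i ∈ range y, |wl a b c (i + 1) - wl a b c i| ≤ 4 * (b.natAbs : ℝ) + 2)
    refine sum_congr rfl fun i _ => ?_
    rw [← Complex.ofReal_sub, Complex.norm_real, Real.norm_eq_abs]

/-- the conclusion for one polynomial, without weights -/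
def GoodU (a b : ℤ) (C N z : ℕ) (c : ℤ) : Prop :=
  ((∀ p : ℕ, p.Prime → ∃ m : ℕ, ¬ (p : ℤ) ∣ fv (-a) (-b) c m) →
    ∃ m : ℕ, 1 ≤ m ∧ m ^ 2 ≤ N ∧ (fv (-a) (-b) c m).toNat.Prime) ∧
  ∀ y : ℕ, y ^ 2 ≤ N →
    |(((Icc 1 y).filter (fun t : ℕ => (fv (-a) (-b) c t).toNat.Prime)).card : ℝ) -
      Sz (-a) (-b) c z * ∑ t ∈ Icc 1 y, 1 / Real.log ((fv (-a) (-b) c t : ℤ) : ℝ)| ≤ Real.sqrt N / Real.log N ^ C

open Classical in
theorem fin_unw {a b : ℤ} (ha : 0 < a) (ρ : ℝ) (hρ : 0 < ρ) (A C T : ℕ) :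
    ∃ B : ℕ, ∀ E : ℕ, ∃ N₀ : ℕ, ∀ N : ℕ, N₀ ≤ N → ∀ z : ℕ, Real.log N ^ B ≤ z → (z : ℝ) ≤ Real.log N ^ E →
      ∀ q : ℕ, 1 ≤ q → (q : ℝ) ≤ (N : ℝ) ^ (1 / 2 - ρ) → (q.divisors.card : ℝ) ≤ Real.log N ^ T →
      ∀ c₀ : ℤ, (Int.gcd (b ^ 2 - 4 * a * c₀) q : ℝ) ≤ Real.log N ^ T →
        (((Icc 1 (N : ℤ)).filter (fun c : ℤ => c ≡ c₀ [ZMOD q] ∧ ¬ GoodU a b C N z c)).card : ℝ) ≤
          (N : ℝ) / (q * Real.log N ^ A) := by
  obtain ⟨B, hB⟩ := fin_sb (α := -a) (γ := -b) (by omega) ρ hρ (A + 1) (C + 1) T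
  refine ⟨B, fun E => ?_⟩
  obtain ⟨N₁, h1⟩ := hB E
  obtain ⟨N₃, h3⟩ := Filter.eventually_atTop.1 (ev_log (A + 1) (s := min ρ (1 / 2)) (by positivity)
    (100 + 4 * b.natAbs + (b ^ 2 + 2 : ℤ)))
  refine ⟨N₁ + N₃ + 3, fun N hN z hz1 hz2 q hq1 hqN hτ c₀ hb => ?_⟩
  have hN1 : 1 ≤ N := by omega
  have hN0 : (0 : ℝ) < N := by exact_mod_cast hN1
  have hN1r : (1 : ℝ) ≤ N := by exact_mod_cast hN1
  have hq0 : (0 : ℝ) < q := by exact_mod_cast hq1
  obtain ⟨hLb, hLp⟩ := h3 N (by omega)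
  have c1 := h1 N (by omega) z hz1 hz2 q hq1 hqN hτ c₀ (by
    have e2 : (4 * -a * c₀ + (-b) ^ 2 : ℤ) = b ^ 2 - 4 * a * c₀ := by ring
    rw [e2]
    exact hb)
  obtain ⟨L, hLd⟩ : ∃ L, L = Real.log (N : ℝ) := ⟨_, rfl⟩
  rw [← hLd] at hLb hLp c1 ⊢
  have hb0 : (0 : ℝ) ≤ b.natAbs := Nat.cast_nonneg _
  have hb2 : (0 : ℝ) ≤ ((b ^ 2 + 2 : ℤ) : ℝ) := by
    have : (0 : ℤ) ≤ b ^ 2 + 2 := by positivity
    exact_mod_cast this
  have hL100 : 100 ≤ L := by linarith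
  have hL0 : 0 < L := by linarith
  have hL1 : 1 ≤ L := by linarith
  obtain ⟨M, hM⟩ : ∃ M, M = Real.sqrt N := ⟨_, rfl⟩
  have hM0 : 0 < M := by rw [hM]; exact Real.sqrt_pos.2 hN0
  have hMM : M * M = N := by rw [hM]; exact Real.mul_self_sqrt hN0.le
  have hMr : M = (N : ℝ) ^ (1 / 2 : ℝ) := by rw [hM, Real.sqrt_eq_rpow]
  have hqM : (q : ℝ) * L ^ (A + 1) ≤ M := by
    calc (q : ℝ) * L ^ (A + 1) ≤ (N : ℝ) ^ (1 / 2 - ρ) * (N : ℝ) ^ ρ := by
          apply mul_le_mul hqN _ (by positivity) (by positivity)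
          exact hLp.trans (Real.rpow_le_rpow_of_exponent_le hN1r (min_le_left _ _))
      _ = M := by
          rw [← Real.rpow_add hN0, hMr]
          congr 1
          ring
  have hLM : L ^ (A + 1) ≤ M := by
    rw [hMr]
    exact hLp.trans (Real.rpow_le_rpow_of_exponent_le hN1r (min_le_right _ _))
  have hsub : (Icc 1 (N : ℤ)).filter (fun c : ℤ => c ≡ c₀ [ZMOD q] ∧ ¬ GoodU a b C N z c) ⊆
      Icc 1 (b ^ 2 + 2) ∪
      (Icc (-(N : ℤ)) N).filter (fun n : ℤ => n ≡ c₀ [ZMOD q] ∧ ¬ GoodF (-a) (-b) (C + 1) N z n) := by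
    intro c hc
    rw [mem_filter, mem_Icc] at hc
    obtain ⟨⟨k1, k2⟩, k3, k4⟩ := hc
    rw [mem_union]
    rcases le_or_gt c (b ^ 2 + 2) with h5 | h5
    · left
      rw [mem_Icc]
      exact ⟨k1, h5⟩
    · right
      rw [mem_filter, mem_Icc]
      refine ⟨⟨by linarith [Int.natCast_nonneg N], k2⟩, k3, fun hg => k4 ?_⟩
      have hc' : b ^ 2 + 2 ≤ c := h5.le
      have hnat : ∀ t : ℕ, (fv (-a) (-b) c t).toNat = (fv (-a) (-b) c t).natAbs := by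
        intro t
        have := fv_two ha hc' t
        omega
      unfold GoodU
      simp only [hnat]
      refine ⟨hg.1, fun y hy => ?_⟩
      have h6 := unweight ha hc' (y := y) (S := Sz (-a) (-b) c z) (ε := Real.sqrt N / Real.log N ^ (C + 1))
        (fun m hm => hg.2 m ((Nat.pow_le_pow_left hm 2).trans hy))
      refine h6.trans ?_
      rw [← hM, ← hLd]
      calc M / L ^ (C + 1) * (4 * b.natAbs + 4) ≤ M / L ^ (C + 1) * L := by
            apply mul_le_mul_of_nonneg_left _ (by positivity)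
            linarith
        _ = M / L ^ C := by
            rw [pow_succ]
            field_simp
  have hc1 : ((Icc 1 (b ^ 2 + 2)).card : ℝ) ≤ N / (q * L ^ (A + 1)) := by
    have e1 : ((Icc 1 (b ^ 2 + 2)).card : ℝ) = ((b ^ 2 + 2 : ℤ) : ℝ) := by
      rw [Int.card_Icc]
      have : (((b ^ 2 + 2 + 1 - 1).toNat : ℕ) : ℤ) = b ^ 2 + 2 := by
        rw [Int.toNat_of_nonneg (by linarith [sq_nonneg b])]
        ring
      exact_mod_cast this
    rw [e1, le_div_iff₀ (by positivity)]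
    calc ((b ^ 2 + 2 : ℤ) : ℝ) * (q * L ^ (A + 1)) ≤ M * M := by
          apply mul_le_mul _ hqM (by positivity) hM0.le
          have : L ^ 1 ≤ L ^ (A + 1) := pow_le_pow_right₀ hL1 (by omega)
          linarith
      _ = N := hMM
  calc (((Icc 1 (N : ℤ)).filter (fun c : ℤ => c ≡ c₀ [ZMOD q] ∧ ¬ GoodU a b C N z c)).card : ℝ)
      ≤ ((Icc 1 (b ^ 2 + 2) ∪
      (Icc (-(N : ℤ)) N).filter (fun n : ℤ => n ≡ c₀ [ZMOD q] ∧ ¬ GoodF (-a) (-b) (C + 1) N z n)).card : ℝ) := by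
        exact_mod_cast card_le_card hsub
    _ ≤ ((Icc 1 (b ^ 2 + 2)).card : ℝ) +
      (((Icc (-(N : ℤ)) N).filter (fun n : ℤ => n ≡ c₀ [ZMOD q] ∧ ¬ GoodF (-a) (-b) (C + 1) N z n)).card : ℝ) := by
        exact_mod_cast card_union_le _ _
    _ ≤ N / (q * L ^ (A + 1)) + N / (q * L ^ (A + 1)) := add_le_add hc1 c1
    _ = N / (q * L ^ A) * (2 / L) := by
        rw [pow_succ]
        field_simp
        ring
    _ ≤ N / (q * L ^ A) * 1 := by
        apply mul_le_mul_of_nonneg_left _ (by positivity)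
        rw [div_le_one hL0]
        linarith
    _ = _ := mul_one _

end Pool.Agent.R460.SB
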